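import Mathlib
import Pool.Agent.Lib.MP_688fd0_co.SQ5.H76.Word

/-!
MP_688fd0_co, type C2, case B3: the changes of the types of the events (helper24, for helper66's FLUSH).
-/

set_option autoImplicit false

namespace Pool.Agent.Lib.MP_688fd0_co.SQ5.H24

open Pool.Agent.Lib.MP_688fd0_co.SQ5.H76

theorem emod_pred {E : ℤ} (hE : 0 < E) (u : ℤ) :
    (u % E = 0 ∧ (u - 1) % E = E - 1) ∨ (1 ≤ u % E ∧ (u - 1) % E = u % E - 1) := by
  have h0 := Int.emod_nonneg u (ne_of_gt hE)
  have h1 := Int.emod_lt_of_pos u hE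
  have e1 := Int.emod_add_mul_ediv u E
  rcases eq_or_lt_of_le h0 with h | h
  · left
    refine ⟨h.symm, ?_⟩
    have e : u - 1 = (E - 1) + E * (u / E - 1) := by linear_combination -e1 - h
    rw [e, Int.add_mul_emod_self_left]
    exact Int.emod_eq_of_lt (by omega) (by omega)
  · right
    refine ⟨h, ?_⟩
    have e : u - 1 = (u % E - 1) + E * (u / E) := by linear_combination -e1
    rw [e, Int.add_mul_emod_self_left]
    exact Int.emod_eq_of_lt (by omega) (by omega)

section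

variable {l0 c0 G X : ℤ} {w : Word l0 c0 G X} {kq h ρ : ℤ} {ty : Bool}

/-- The changes a -> b. -/
theorem ab_mod (r : Reg w kq h ρ ty) (hc : 0 ≤ c0) (hh : 1 ≤ h) {u : ℤ} (h1 : w.aev (u - 1)) (h2 : w.bev u) :
    u % w.Et = 0 ∨ (ty = true ∧ u % w.Et = 2 * h) := by
  have hE := r.Et_pos hc hh
  have hEt := r.hEt
  have hρ := r.ρ0
  rw [r.aev_iff] at h1
  rw [r.bev_iff] at h2
  unfold bt at h1 h2
  have h0 := Int.emod_lt_of_pos u hE
  rcases emod_pred hE u with h3 | h3
  · exact Or.inl h3.1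
  · rw [h3.2] at h1
    cases ty
    · simp only [Bool.false_eq_true, if_false] at h1 h2
      omega
    · simp only [if_true] at h1 h2
      right
      exact ⟨rfl, by omega⟩

/-- The changes b -> a. -/
theorem ba_mod (r : Reg w kq h ρ ty) (hc : 0 ≤ c0) (hh : 1 ≤ h) {v : ℤ} (h1 : w.bev (v - 1)) (h2 : w.aev v) :
    (ty = false ∧ v % w.Et = 2 * h + ρ) ∨ (ty = true ∧ (v % w.Et = h ∨ v % w.Et = 3 * h + ρ)) := by
  have hE := r.Et_pos hc hh
  have hEt := r.hEt
  have hρ := r.ρ0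
  rw [r.bev_iff] at h1
  rw [r.aev_iff] at h2
  unfold bt at h1 h2
  have h0 := Int.emod_lt_of_pos v hE
  rcases emod_pred hE v with h3 | h3
  · rw [h3.2] at h1
    rw [h3.1] at h2
    cases ty
    · simp only [Bool.false_eq_true, if_false] at h1 h2
      omega
    · simp only [if_true] at h1 h2
      omega
  · rw [h3.2] at h1
    cases ty
    · simp only [Bool.false_eq_true, if_false] at h1 h2
      left
      exact ⟨rfl, by omega⟩
    · simp only [if_true] at h1 h2
      right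
      exact ⟨rfl, by omega⟩

theorem chg_iff {u : ℤ} : w.chg u ↔ (w.aev (u - 1) ∧ w.bev u) ∨ (w.bev (u - 1) ∧ w.aev u) := by
  unfold Word.chg
  rw [← w.not_aev, ← w.not_aev]
  tauto

/-- The changes are far from each other. -/
theorem str_of (r : Reg w kq h ρ ty) (hc : 0 ≤ c0) (hh : 1 ≤ h) {u v : ℤ} (h1 : w.chg u) (h2 : w.chg v) (hne : u ≠ v) :
    h ≤ |u - v| := by
  have hE := r.Et_pos hc hh
  have hEt := r.hEt
  have hρ := r.ρ0
  have key : ∀ u, w.chg u → u % w.Et = 0 ∨ (ty = false ∧ u % w.Et = 2 * h + ρ) ∨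
      (ty = true ∧ (u % w.Et = h ∨ u % w.Et = 2 * h ∨ u % w.Et = 3 * h + ρ)) := by
    intro u hu
    rcases chg_iff.1 hu with ⟨h3, h4⟩ | ⟨h3, h4⟩
    · rcases ab_mod r hc hh h3 h4 with h5 | ⟨h5, h6⟩
      · exact Or.inl h5
      · exact Or.inr (Or.inr ⟨h5, Or.inr (Or.inl h6)⟩)
    · rcases ba_mod r hc hh h3 h4 with h5 | ⟨h5, h6 | h6⟩
      · exact Or.inr (Or.inl h5)
      · exact Or.inr (Or.inr ⟨h5, Or.inl h6⟩)
      · exact Or.inr (Or.inr ⟨h5, Or.inr (Or.inr h6)⟩)
  have ku := key u h1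
  have kv := key v h2
  have e1 := Int.emod_add_mul_ediv u w.Et
  have e2 := Int.emod_add_mul_ediv v w.Et
  have hd : u - v = (u % w.Et - v % w.Et) + w.Et * (u / w.Et - v / w.Et) := by linear_combination -e1 + e2
  set a := u % w.Et
  set b := v % w.Et
  set d := u / w.Et - v / w.Et
  have hab : a ≠ b ∨ d ≠ 0 := by
    by_contra hcon
    push Not at hcon
    apply hne
    rw [hcon.1, hcon.2] at hd
    linarith
  rw [le_abs]
  rcases lt_trichotomy d 0 with h3 | h3 | h3
  · right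
    have h4 : w.Et * d ≤ w.Et * (-1) := mul_le_mul_of_nonneg_left (by omega) hE.le
    rcases ku with k | ⟨k0, k⟩ | ⟨k0, k | k | k⟩ <;> rcases kv with l | ⟨q0, l⟩ | ⟨q0, l | l | l⟩ <;>
      (rw [hd, k, l]; first | linarith | (rw [k0] at q0; exact absurd q0 (by decide)))
  · rw [h3, mul_zero, add_zero] at hd
    have hab' : a ≠ b := by
      rcases hab with h4 | h4
      · exact h4
      · exact absurd h3 h4
    rw [hd]
    rcases ku with k | ⟨k0, k⟩ | ⟨k0, k | k | k⟩ <;> rcases kv with l | ⟨q0, l⟩ | ⟨q0, l | l | l⟩ <;>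
      first
        | omega
        | (rw [k0] at q0; exact absurd q0 (by decide))
  · left
    have h4 : w.Et * 1 ≤ w.Et * d := mul_le_mul_of_nonneg_left (by omega) hE.le
    rcases ku with k | ⟨k0, k⟩ | ⟨k0, k | k | k⟩ <;> rcases kv with l | ⟨q0, l⟩ | ⟨q0, l | l | l⟩ <;>
      (rw [hd, k, l]; first | linarith | (rw [k0] at q0; exact absurd q0 (by decide)))

end

/-- For every shift `nn` one of the two types is good. -/
theorem exists_type {l0 c0 G X : ℤ} (hc : 0 ≤ c0) {kq h ρ m : ℤ} (hm : 0 ≤ m) (hh : 2 * m + 1 ≤ h) (hρ : 0 ≤ ρ) (nn : ℤ) :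
    ∃ ty : Bool, ∀ w : Word l0 c0 G X, Reg w kq h ρ ty → ∀ u v, w.aev (u - 1) → w.bev u → w.bev (v - 1) → w.aev v →
      m ≤ |v + nn - u| := by
  by_cases hbad : ∃ z : ℤ, |nn + 2 * h + ρ - z * (c0 + 4 * h + 2 * ρ)| < m
  · refine ⟨true, fun w r u v h1 h2 h3 h4 => ?_⟩
    have hE := r.Et_pos hc (by omega)
    have hEt := r.hEt
    obtain ⟨z, hz⟩ := hbad
    rw [← hEt] at hz
    rw [abs_lt] at hz
    have k1 := ab_mod r hc (by omega) h1 h2
    have k2 := ba_mod r hc (by omega) h3 h4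
    have e1 := Int.emod_add_mul_ediv u w.Et
    have e2 := Int.emod_add_mul_ediv v w.Et
    obtain ⟨δ, hδ⟩ : ∃ δ, δ = nn + 2 * h + ρ - z * w.Et := ⟨_, rfl⟩
    rw [← hδ] at hz
    have hd : v + nn - u = (v % w.Et - u % w.Et - (2 * h + ρ) + δ) + w.Et * (v / w.Et - u / w.Et + z) := by
      rw [hδ]; linear_combination -e2 + e1
    set a := u % w.Et
    set b := v % w.Et
    set y := v / w.Et - u / w.Et + z
    rw [le_abs]
    rcases lt_trichotomy y 0 with h5 | h5 | h5
    · right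
      have h6 : w.Et * y ≤ w.Et * (-1) := mul_le_mul_of_nonneg_left (by omega) hE.le
      rcases k1 with k | ⟨_, k⟩ <;> rcases k2 with ⟨l0, _⟩ | ⟨_, l | l⟩ <;>
        first | (exfalso; cases l0; done) | (rw [hd, k, l]; linarith [hz.1, hz.2])
    · rw [h5, mul_zero, add_zero] at hd
      rw [hd]
      rcases k1 with k | ⟨_, k⟩ <;> rcases k2 with ⟨l0, _⟩ | ⟨_, l | l⟩ <;>
        first | (exfalso; cases l0; done) | omega
    · left
      have h6 : w.Et * 1 ≤ w.Et * y := mul_le_mul_of_nonneg_left (by omega) hE.le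
      rcases k1 with k | ⟨_, k⟩ <;> rcases k2 with ⟨l0, _⟩ | ⟨_, l | l⟩ <;>
        first | (exfalso; cases l0; done) | (rw [hd, k, l]; linarith [hz.1, hz.2])
  · refine ⟨false, fun w r u v h1 h2 h3 h4 => ?_⟩
    push Not at hbad
    have hEt := r.hEt
    have k1 := ab_mod r hc (by omega) h1 h2
    have k2 := ba_mod r hc (by omega) h3 h4
    have e1 := Int.emod_add_mul_ediv u w.Et
    have e2 := Int.emod_add_mul_ediv v w.Et
    rcases k1 with k | ⟨k, _⟩
    · rcases k2 with ⟨_, l⟩ | ⟨l, _⟩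
      · have h5 := hbad (u / w.Et - v / w.Et)
        rw [← hEt] at h5
        have e3 : v + nn - u = nn + 2 * h + ρ - (u / w.Et - v / w.Et) * w.Et := by
          linear_combination -e2 + e1 + l - k
        rw [e3]
        exact h5
      · cases l
    · cases k

end Pool.Agent.Lib.MP_688fd0_co.SQ5.H24
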