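import Mathlib
import Pool.Agent.Lib.MP_688fd0_co.SQ5.H76.Pull
import Pool.Agent.Lib.MP_688fd0_co.SQ5.H66.Basis
import Pool.Agent.Lib.MP_688fd0_co.SQ5.H41.Compl
import Pool.Agent.Lib.MP_688fd0_co.SQ5.H24.Str

/-!
MP_688fd0_co, type C2, case B3: THE LAYOUT EXISTS (helper24).

`exists_gen`: for a primitive vector `w_0 = (i0, j0)` of the lattice and eight candidates `R 0, .., R 7` for the number of walls
(`c + j` special strips in the block of `R j` walls) one of them satisfies the condition on the phases at the sea.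
`exists_geo_of`: groups of `kk` walls. `exists_geo`: every far triple.
-/

set_option autoImplicit false

namespace Pool.Agent.Lib.MP_688fd0_co.SQ5.H24

open Pool.Agent.Lib.MP_688fd0_co.SQ5.H66 Pool.Agent.Lib.MP_688fd0_co.SQ5.H76

/-! ### The word -/

section word

variable {l0 c0 G X : ℤ} (w : Word l0 c0 G X)

include w in
theorem Et_mul_le : w.Et * G ≤ l0 := by
  have h : ∀ m : ℕ, w.e 0 + m * G ≤ w.e m := by
    intro m
    induction m with
    | zero => simp
    | succ m ih => have := w.he m; push_cast; linarith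
  have h1 := h w.Et.toNat
  have h2 := w.eEt 0
  have h3 := w.Et8
  have h4 : ((w.Et.toNat : ℕ) : ℤ) = w.Et := Int.toNat_of_nonneg (by omega)
  rw [h4] at h1
  rw [zero_add] at h2
  linarith

/-- The events of the word and of its translate by `sh` levels are far from each other. -/
theorem sep_of (hl0 : 0 < l0) {k sh : ℤ} (h1 : k * l0 + (64 + 4 * X) * w.Et ≤ w.Et * sh)
    (h2 : w.Et * sh ≤ (k + 1) * l0 - (64 + 4 * X) * w.Et) (n m : ℤ) :
    w.e n + (64 + 2 * X) ≤ w.e m + sh ∨ w.e m + sh + (64 + 2 * X) ≤ w.e n := by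
  have hE : 0 < w.Et := by have := w.Et8; omega
  have s1 := w.eb m
  have s2 := w.eb n
  rcases le_or_gt (n - m) k with h | h
  · left
    have b : (n - m) * l0 ≤ k * l0 := mul_le_mul_of_nonneg_right h hl0.le
    have c : w.Et * (w.e n + (64 + 2 * X)) ≤ w.Et * (w.e m + sh) := by linarith [s1.1, s2.2]
    exact le_of_mul_le_mul_left c hE
  · right
    have b : (k + 1) * l0 ≤ (n - m) * l0 := mul_le_mul_of_nonneg_right h hl0.le
    have c : w.Et * (w.e m + sh + (64 + 2 * X)) ≤ w.Et * w.e n := by linarith [s1.2, s2.1]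
    exact le_of_mul_le_mul_left c hE

end word

/-- One of two shifts is good. -/
theorem choose_t {Et l0 TT X : ℤ} (y : ℤ) (hE : 0 < Et) (hX : 0 ≤ X) (hTT : X + 19 ≤ TT)
    (hl : (149 + 8 * X + 8 * TT) * Et ≤ l0) :
    ∃ t q r, (t = 0 ∨ t = TT) ∧ Et * (y - 8 * t) = r + l0 * q ∧ (64 + 4 * X) * Et ≤ r ∧ r ≤ l0 - (85 + 4 * X) * Et := by
  have hXE : 0 ≤ X * Et := mul_nonneg hX hE.le
  have k : (X + 19) * Et ≤ TT * Et := mul_le_mul_of_nonneg_right hTT hE.le
  have hl' : 149 * Et + 8 * (X * Et) + 8 * (TT * Et) ≤ l0 := by linarith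
  have hl0 : 0 < l0 := by nlinarith
  have e := Int.emod_add_mul_ediv (Et * y) l0
  have r0 := Int.emod_nonneg (Et * y) (ne_of_gt hl0)
  have r1 := Int.emod_lt_of_pos (Et * y) hl0
  set r := Et * y % l0
  set q := Et * y / l0
  by_cases h1 : r < (64 + 4 * X) * Et
  · refine ⟨TT, q - 1, r - 8 * (TT * Et) + l0, Or.inr rfl, by linear_combination -e, ?_, ?_⟩
    · linarith
    · linarith
  · by_cases h2 : l0 - (85 + 4 * X) * Et < r
    · refine ⟨TT, q, r - 8 * (TT * Et), Or.inr rfl, by linear_combination -e, ?_, ?_⟩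
      · linarith
      · linarith
    · push Not at h1 h2
      exact ⟨0, q, r, Or.inl rfl, by linear_combination -e, h1, h2⟩

/-! ### The general layout -/

open Classical in
/-- The levels: 3 at every special strip, `3 + 8 t` at the strip `ks`. -/
noncomputable def dlv (spc : ℕ → Prop) (ks : ℕ) (t : ℤ) (k : ℕ) : ℤ :=
  if spc k then (if k = ks then 3 + 8 * t else 3) else 0

open Classical in
theorem sum_dlv (spc : ℕ → Prop) {ks : ℕ} (hks : spc ks) (t : ℤ) {m : ℕ} (hm : ks < m) :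
    ∑ j ∈ Finset.range m, dlv spc ks t j = 3 * (((Finset.range m).filter spc).card : ℤ) + 8 * t := by
  have h : ∀ j, dlv spc ks t j = (if spc j then 3 else 0) + if j = ks then 8 * t else 0 := by
    intro j
    unfold dlv
    by_cases h1 : j = ks
    · subst h1; simp [hks]
    · by_cases h2 : spc j <;> simp [h1, h2]
  rw [Finset.sum_congr rfl fun j _ => h j, Finset.sum_add_distrib, Finset.sum_ite_eq' (Finset.range m) ks fun _ => 8 * t,
    if_pos (Finset.mem_range.2 hm), ← Finset.sum_filter, Finset.sum_const, nsmul_eq_mul]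
  ring

/-- The requirements on the eight candidates. -/
structure Cand (dc : ℕ → ℤ) (spc : ℕ → Prop) (R : ℕ → ℕ) (c ks : ℕ) : Prop where
  hks : spc ks
  ksR : ∀ j < 8, ks + 1 < R j
  R3 : ∀ j < 8, 3 ≤ R j
  cnt : ∀ j < 8, (open Classical in ((Finset.range (R j - 1)).filter spc).card) = c + j
  al : ∀ k, ¬ spc k → 2 ≤ dc k ∧ dc k % 2 = 0
  sp : ∀ k, spc k → 5 ≤ dc k ∧ dc k % 2 = 1
  iso : ∀ j < 8, ∀ k, k + 1 < R j → spc k → 2 ≤ k ∧ k + 3 < R j ∧ ¬ spc (k + 1) ∧ ¬ spc (k + 2)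

/-- The properties of the layout: error bound, types and lengths of the runs, changes of type, levels of the special strips,
offsets at the sea. -/
structure Lay {L : AddSubgroup (ℤ × ℤ)} {M R : ℕ} {dc : ℕ → ℤ} {spc : ℕ → Prop} {G : ℤ} (g : Geo L M R dc spc G)
    (kq h m TT : ℤ) (ks : ℕ) : Prop where
  hX : g.X = 4 * h + 8 * kq + 20
  reg : ∃ ρ ty, Reg g.w kq h ρ ty
  str : g.Str m
  dl3 : ∀ k, spc k → k ≠ ks → g.dl k = 3
  dls : g.dl ks = 3 ∨ g.dl ks = 3 + 8 * TT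
  sea : ∀ K : ℤ, K % (R : ℤ) = R - 1 → ∀ s, (g.P K s - g.P (K + 1) s) % 8 = 0 ∨ (g.P K s - g.P (K + 1) s) % 8 = 3

/-- The numbers of the layout. -/
structure Nums (kq h m TT G : ℤ) : Prop where
  hk : 1 ≤ kq
  hm : 0 ≤ m
  hh : 3 * m + 4 ≤ h
  hTT : 4 * h + 8 * kq + 39 ≤ TT
  hTG : 309 + 32 * h + 64 * kq + 8 * TT ≤ G

/-- THE LAYOUT EXISTS, for a given lattice vector `w_0` and eight candidates. At the sea the offsets are 0 and 3. -/
theorem exists_gen {L : AddSubgroup (ℤ × ℤ)} {M : ℕ} (hLM : L.index = M) (hM : M ≠ 0) {i0 j0 : ℤ} (h0 : (i0, j0) ∈ L)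
    (hc : 0 ≤ i0 - j0) (hl0 : 0 < i0 + j0)
    (hprim : ∀ i j : ℤ, (i, j) ∈ L → i0 * j = j0 * i → ∃ q : ℤ, i = q * i0 ∧ j = q * j0) {kq h m TT G : ℤ}
    (hn : Nums kq h m TT G)
    (hlG : (i0 - j0 + 4 * h + 6) * (G + 8 * kq + 40) ≤ i0 + j0)
    {dc : ℕ → ℤ} {spc : ℕ → Prop} {R : ℕ → ℕ} {c ks : ℕ} (hC : Cand dc spc R c ks)
    (hw : ∀ j < 8, (i0 + j0) * (∑ k ∈ Finset.range (R j - 1), dc k + 3 * R j + (50 + 8 * h + 16 * kq)) ≤ 2 * M) :
    ∃ j < 8, ∃ g : Geo L M (R j) dc spc G, g.i0 = i0 ∧ g.j0 = j0 ∧ Lay g kq h m TT ks := by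
  classical
  obtain ⟨hk, hm, hh, hTT, hTG⟩ := hn
  obtain ⟨ρ, hρ0, hρ3, hwx⟩ := exists_word (l0 := i0 + j0) (c0 := i0 - j0) (kq := kq) (h := h) hc (by omega)
    (by omega : 1 ≤ G) hk (by omega) hlG
  obtain ⟨w0, hr0⟩ := hwx false
  obtain ⟨Et, hEt⟩ : ∃ Et, Et = i0 - j0 + 4 * h + 2 * ρ := ⟨_, rfl⟩
  have hX0 : 0 ≤ 4 * h + 8 * kq + 20 := by omega
  have hE : 0 < Et := by omega
  have hEl : (149 + 8 * (4 * h + 8 * kq + 20) + 8 * TT) * Et ≤ i0 + j0 := by
    have a1 : (149 + 8 * (4 * h + 8 * kq + 20) + 8 * TT) * Et ≤ G * Et :=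
      mul_le_mul_of_nonneg_right (by linarith) hE.le
    have a2 := Et_mul_le w0
    rw [hr0.hEt, ← hEt] at a2
    linarith
  obtain ⟨i1, j1, h1, hdet, hker⟩ := H41.completion L (by rw [hLM]; exact hM) i0 j0 h0
    (by rintro ⟨rfl, rfl⟩; simp at hl0) hprim
  rw [hLM] at hdet
  obtain ⟨t, k, r, ht, hq, hr1, hr2⟩ := choose_t (i1 + j1 - 3 * (c : ℤ) - 21) hE hX0 (by linarith) hEl
  have ht0 : 0 ≤ t ∧ 3 + 8 * t ≤ G := by rcases ht with rfl | rfl <;> constructor <;> omega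
  obtain ⟨j, hj8, hj⟩ : ∃ j : ℕ, j < 8 ∧ (i1 + j1 - 3 * (c : ℤ) - 8 * t - 3 * j - 3 * (k + 1)) % 8 = 0 :=
    ⟨((3 * (i1 + j1 - 3 * (c : ℤ) - 3 * (k + 1))) % 8).toNat, by omega, by omega⟩
  -- the type
  obtain ⟨ty, hty⟩ := exists_type (l0 := i0 + j0) (G := G) (X := 4 * h + 8 * kq + 20) (kq := kq) hc hm
    (by omega : 2 * m + 1 ≤ h) hρ0 (k + 1)
  obtain ⟨w, hreg⟩ := hwx ty
  have hwE : w.Et = Et := hreg.hEt.trans hEt.symm
  have hbl : ∑ m ∈ Finset.range (R j - 1), dlv spc ks t m = 3 * ((c : ℤ) + j) + 8 * t := by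
    have h2 := hC.cnt j hj8
    have h3 := hC.ksR j hj8
    rw [sum_dlv spc hC.hks t (show ks < R j - 1 by omega)]
    have h4 : ((Finset.range (R j - 1)).filter spc).card = c + j := by
      rw [← h2]
    rw [h4]
    push_cast
    ring
  have hsh : i1 + j1 - ∑ m ∈ Finset.range (R j - 1), dlv spc ks t m =
      i1 + j1 - 3 * (c : ℤ) - 21 - 8 * t + (21 - 3 * j) := by
    rw [hbl]; ring
  have hj8' : (j : ℤ) < 8 := by exact_mod_cast hj8
  have m1 : 0 ≤ w.Et * (21 - 3 * (j : ℤ)) := mul_nonneg (by rw [hwE]; exact hE.le) (by omega)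
  have m2 : w.Et * (21 - 3 * (j : ℤ)) ≤ w.Et * 21 := mul_le_mul_of_nonneg_left (by omega) (by rw [hwE]; exact hE.le)
  have hXE : 0 ≤ (4 * h + 8 * kq + 20) * w.Et := mul_nonneg hX0 (by rw [hwE]; exact hE.le)
  rw [← hwE] at hq hr1 hr2 hE
  have b1 : k * (i0 + j0) + (64 + 4 * (4 * h + 8 * kq + 20)) * w.Et ≤
      w.Et * (i1 + j1 - ∑ m ∈ Finset.range (R j - 1), dlv spc ks t m) := by
    rw [hsh, mul_add w.Et _ (21 - 3 * (j : ℤ)), hq]
    linarith [mul_comm (i0 + j0) k]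
  have b2 : w.Et * (i1 + j1 - ∑ m ∈ Finset.range (R j - 1), dlv spc ks t m) ≤
      (k + 1) * (i0 + j0) - (64 + 4 * (4 * h + 8 * kq + 20)) * w.Et := by
    rw [hsh, mul_add w.Et _ (21 - 3 * (j : ℤ)), hq]
    linarith [mul_comm (i0 + j0) k]
  have hfl : w.Et * (i1 + j1 - ∑ m ∈ Finset.range (R j - 1), dlv spc ks t m) / (i0 + j0) = k := by
    apply le_antisymm
    · have := (Int.ediv_lt_iff_lt_mul hl0).2 (show w.Et * (i1 + j1 - ∑ m ∈ Finset.range (R j - 1), dlv spc ks t m) <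
        (k + 1) * (i0 + j0) by linarith)
      omega
    · exact (Int.le_ediv_iff_mul_le hl0).2 (by linarith)
  have hph : (i1 + j1 - ∑ m ∈ Finset.range (R j - 1), dlv spc ks t m - 3 * (k + 1)) % 8 = 0 := by
    rw [hbl]
    have e : i1 + j1 - (3 * ((c : ℤ) + j) + 8 * t) - 3 * (k + 1) =
      i1 + j1 - 3 * (c : ℤ) - 8 * t - 3 * j - 3 * (k + 1) := by ring
    rw [e]
    exact hj
  have hR3 := hC.R3 j hj8
  have hwj : (i0 + j0) * (∑ k ∈ Finset.range (R j - 1), dc k + 3 * R j + 10 + 2 * (4 * h + 8 * kq + 20)) ≤ 2 * M := by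
    have := hw j hj8
    rw [show ∑ k ∈ Finset.range (R j - 1), dc k + 3 * (R j : ℤ) + 10 + 2 * (4 * h + 8 * kq + 20) =
      ∑ k ∈ Finset.range (R j - 1), dc k + 3 * R j + (50 + 8 * h + 16 * kq) by ring]
    exact this
  refine ⟨j, hj8, ⟨i0, j0, i1, j1, 4 * h + 8 * kq + 20, k + 1, dlv spc ks t, w, h0, h1, hker, hdet, hc, hl0, hR3, ?_,
    hC.iso j hj8, ?_, ?_, hph, sep_of w hl0 b1 b2, hwj, by omega, hX0⟩, rfl, rfl, rfl, ⟨ρ, ty, hreg⟩, ⟨?_, ?_⟩, ?_, ?_, ?_⟩
  · intro m _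
    unfold dlv
    by_cases h2 : spc m
    · right
      obtain ⟨d1, d2⟩ := hC.sp m h2
      rw [if_pos h2]
      by_cases h3 : m = ks
      · rw [if_pos h3]
        exact ⟨h2, by omega, by omega, by omega, d1, d2⟩
      · rw [if_neg h3]
        exact ⟨h2, by norm_num, by norm_num, by omega, d1, d2⟩
    · left
      obtain ⟨d1, d2⟩ := hC.al m h2
      exact ⟨h2, if_neg h2, d1, d2⟩
  · have e : (k + 1 - 1) * (i0 + j0) = k * (i0 + j0) := by ring
    rw [e]
    linarith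
  · linarith
  · intro u v hu hv hne
    have := str_of hreg hc (by omega) hu hv hne
    omega
  · intro u v
    exact hty w hreg u v
  · intro m hm hne
    show dlv spc ks t m = 3
    unfold dlv
    rw [if_pos hm, if_neg hne]
  · show dlv spc ks t ks = 3 ∨ dlv spc ks t ks = 3 + 8 * TT
    unfold dlv
    rw [if_pos hC.hks, if_pos rfl]
    rcases ht with rfl | rfl
    · left; ring
    · right; rfl
  · intro K hK s
    set g : Geo L M (R j) dc spc G := ⟨i0, j0, i1, j1, 4 * h + 8 * kq + 20, k + 1, dlv spc ks t, w, h0, h1, hker, hdet,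
      hc, hl0, hR3, _, hC.iso j hj8, _, _, hph, sep_of w hl0 b1 b2, hwj, _, hX0⟩ with hg
    rcases g.succ_cases K with ⟨h3, _⟩ | ⟨_, _, h3, _⟩
    · exfalso; omega
    · have h4 := g.w.two g.G1 g.X0 (σ := g.sh) g.sep (s - g.Lv K)
      have e : s - (g.Lv K + g.sh) = s - g.Lv K - g.sh := by ring
      have e2 : g.w.Et * g.sh / (g.i0 + g.j0) = k := hfl
      have e3 : (g.sh - 3 * (k + 1)) % 8 = 0 := hph
      unfold Geo.P Word.P
      rw [h3, e]
      rw [e2] at h4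
      rcases h4 with h4 | h4
      · right; omega
      · left; omega

/-! ### Groups of walls -/

/-- Columns. -/
def dcg (kk : ℕ) (ww : ℕ → ℤ) (k : ℕ) : ℤ := if (k + 1) % kk = 0 then ww (k / kk) else 4

/-- Special strips. -/
def spg (kk : ℕ) (k : ℕ) : Prop := (k + 1) % kk = 0

open Classical in
theorem card_spg {kk : ℕ} (hkk : 3 ≤ kk) (n : ℕ) : ((Finset.range (kk * (n + 1) - 1)).filter (spg kk)).card = n := by
  induction n with
  | zero =>
    rw [Finset.card_eq_zero, Finset.filter_eq_empty_iff]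
    intro k hk
    rw [Finset.mem_range] at hk
    unfold spg
    rw [Nat.mod_eq_of_lt (by omega)]
    omega
  | succ n ih =>
    have h1 : kk * (n + 1 + 1) - 1 = (kk * (n + 1) - 1) + kk := by
      have e1 : kk * (n + 1 + 1) = kk * (n + 1) + kk := by ring
      have e2 : 1 ≤ kk * (n + 1) := Nat.mul_pos (by omega) (by omega)
      omega
    have h2 : (Finset.range (kk * (n + 1 + 1) - 1)).filter (spg kk) =
        insert (kk * (n + 1) - 1) ((Finset.range (kk * (n + 1) - 1)).filter (spg kk)) := by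
      ext x
      simp only [Finset.mem_filter, Finset.mem_range, Finset.mem_insert]
      have e2 : 1 ≤ kk * (n + 1) := Nat.mul_pos (by omega) (by omega)
      constructor
      · rintro ⟨h3, h4⟩
        by_cases h5 : x < kk * (n + 1) - 1
        · right; exact ⟨h5, h4⟩
        · left
          unfold spg at h4
          obtain ⟨d, hd⟩ := Nat.dvd_of_mod_eq_zero h4
          have h6 : kk * (n + 1) ≤ kk * d := by omega
          have h7 : kk * d < kk * (n + 1 + 1) := by omega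
          have h8 : n + 1 ≤ d := Nat.le_of_mul_le_mul_left h6 (by omega)
          have h9 : d < n + 1 + 1 := Nat.lt_of_mul_lt_mul_left h7
          have h10 : d = n + 1 := by omega
          rw [h10] at hd
          omega
      · rintro (h3 | ⟨h3, h4⟩)
        · subst h3
          refine ⟨by omega, ?_⟩
          unfold spg
          rw [show kk * (n + 1) - 1 + 1 = kk * (n + 1) by omega]
          exact Nat.mul_mod_right _ _
        · exact ⟨by omega, h4⟩
    rw [h2, Finset.card_insert_of_notMem (by simp), ih]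

theorem cand_groups {kk : ℕ} (hkk : 3 ≤ kk) {ww : ℕ → ℤ} (hww : ∀ h, ww h = 5 ∨ ww h = 7) {n0 hs : ℕ}
    (hs0 : hs + 2 ≤ n0) : Cand (dcg kk ww) (spg kk) (fun j => kk * (n0 + j)) (n0 - 1) (kk * (hs + 1) - 1) := by
  have hpos : 1 ≤ kk * (hs + 1) := Nat.mul_pos (by omega) (by omega)
  refine ⟨?_, ?_, ?_, ?_, ?_, ?_, ?_⟩
  · unfold spg
    rw [show kk * (hs + 1) - 1 + 1 = kk * (hs + 1) by omega]
    exact Nat.mul_mod_right _ _
  · intro j _
    have : kk * (hs + 1) < kk * (n0 + j) := Nat.mul_lt_mul_of_pos_left (by omega) (by omega)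
    show kk * (hs + 1) - 1 + 1 < kk * (n0 + j)
    omega
  · intro j _
    have : kk * 1 ≤ kk * (n0 + j) := Nat.mul_le_mul_left kk (by omega)
    show 3 ≤ kk * (n0 + j)
    omega
  · intro j _
    have h := card_spg hkk (n0 + j - 1)
    rw [show n0 + j - 1 + 1 = n0 + j by omega] at h
    rw [h]
    omega
  · intro k hk
    unfold dcg
    unfold spg at hk
    rw [if_neg hk]
    constructor <;> norm_num
  · intro k hk
    unfold dcg
    unfold spg at hk
    rw [if_pos hk]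
    rcases hww (k / kk) with h | h <;> rw [h] <;> constructor <;> norm_num
  · intro j _ k hk hs1
    show 2 ≤ k ∧ k + 3 < kk * (n0 + j) ∧ _
    have hk' : k + 1 < kk * (n0 + j) := hk
    unfold spg at hs1 ⊢
    obtain ⟨d, hd⟩ := Nat.dvd_of_mod_eq_zero hs1
    have hd0 : 1 ≤ d := by
      rcases Nat.eq_zero_or_pos d with h | h
      · rw [h] at hd; omega
      · exact h
    have h1 : kk * 1 ≤ kk * d := Nat.mul_le_mul_left kk hd0
    have h2 : d < n0 + j := Nat.lt_of_mul_lt_mul_left (a := kk) (by omega)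
    have h3 : kk * (d + 1) ≤ kk * (n0 + j) := Nat.mul_le_mul_left kk (by omega)
    have h4 : kk * (d + 1) = kk * d + kk := by ring
    refine ⟨by omega, by omega, ?_, ?_⟩
    · rw [hd, Nat.mul_add_mod, Nat.mod_eq_of_lt (by omega)]
      omega
    · rw [show k + 2 + 1 = kk * d + 2 by omega, Nat.mul_add_mod, Nat.mod_eq_of_lt (by omega)]
      omega

theorem dcg_le {kk : ℕ} (hkk : 3 ≤ kk) {ww : ℕ → ℤ} (hww : ∀ h, ww h = 5 ∨ ww h = 7) (n : ℕ) :
    ∑ k ∈ Finset.range (kk * (n + 1) - 1), dcg kk ww k ≤ 4 * (kk * (n + 1)) + 3 * n := by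
  classical
  have h : ∀ k, dcg kk ww k ≤ 4 + if spg kk k then 3 else 0 := by
    intro k
    unfold dcg spg
    by_cases h1 : (k + 1) % kk = 0
    · rw [if_pos h1, if_pos h1]
      rcases hww (k / kk) with h | h <;> rw [h] <;> norm_num
    · rw [if_neg h1, if_neg h1]
      norm_num
  refine (Finset.sum_le_sum fun k _ => h k).trans ?_
  rw [Finset.sum_add_distrib, ← Finset.sum_filter, Finset.sum_const, Finset.sum_const, card_spg hkk, Finset.card_range]
  have h1 : ((kk * (n + 1) - 1 : ℕ) : ℤ) ≤ (kk : ℤ) * (n + 1) := by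
    have : kk * (n + 1) - 1 ≤ kk * (n + 1) := Nat.sub_le _ _
    exact_mod_cast this
  simp only [nsmul_eq_mul]
  linarith

/-- THE LAYOUT EXISTS, groups of `kk` walls, for a given lattice vector `w_0`. -/
theorem exists_geo_of {L : AddSubgroup (ℤ × ℤ)} {M : ℕ} (hLM : L.index = M) (hM : M ≠ 0) {i0 j0 : ℤ} (h0 : (i0, j0) ∈ L)
    (hc : 0 ≤ i0 - j0) (hl0 : 0 < i0 + j0)
    (hprim : ∀ i j : ℤ, (i, j) ∈ L → i0 * j = j0 * i → ∃ q : ℤ, i = q * i0 ∧ j = q * j0)
    {kk : ℕ} (hkk : 3 ≤ kk) {ww : ℕ → ℤ} (hww : ∀ h, ww h = 5 ∨ ww h = 7) {n0 hs : ℕ} (hs0 : hs + 2 ≤ n0)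
    {kq h m TT G : ℤ} (hn : Nums kq h m TT G) (hlG : (i0 - j0 + 4 * h + 6) * (G + 8 * kq + 40) ≤ i0 + j0)
    (hwide : (i0 + j0) * (7 * (kk * (n0 + 8)) + 3 * (n0 + 8) + (50 + 8 * h + 16 * kq)) ≤ 2 * M) :
    ∃ ng, n0 ≤ ng ∧ ng < n0 + 8 ∧ ∃ g : Geo L M (kk * ng) (dcg kk ww) (spg kk) G, g.i0 = i0 ∧ g.j0 = j0 ∧
      Lay g kq h m TT (kk * (hs + 1) - 1) := by
  obtain ⟨j, hj, g, e⟩ := exists_gen hLM hM h0 hc hl0 hprim hn hlG (cand_groups hkk hww hs0) (by
    intro j hj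
    refine (mul_le_mul_of_nonneg_left ?_ hl0.le).trans hwide
    have h1 := dcg_le hkk hww (n0 + j - 1)
    rw [show n0 + j - 1 + 1 = n0 + j by omega] at h1
    have h2 : ((n0 + j - 1 : ℕ) : ℤ) = (n0 : ℤ) + j - 1 := by omega
    have hj' : (j : ℤ) < 8 := by exact_mod_cast hj
    have hk : (0 : ℤ) ≤ kk := Int.natCast_nonneg kk
    have h3 : (kk : ℤ) * (n0 + j) ≤ kk * (n0 + 8) := mul_le_mul_of_nonneg_left (by linarith) hk
    rw [h2] at h1
    push_cast
    have e : (kk : ℤ) * ((n0 : ℤ) + j - 1 + 1) = kk * (n0 + j) := by ring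
    rw [e] at h1
    linarith)
  exact ⟨n0 + j, by omega, by omega, g, e⟩

/-! ### The far triple -/

section lattice

variable {T : Type*} [AddCommGroup T]

theorem index_Ltc {al be : T} (hg : Gn al be) : (Ltc al be).index = Nat.card T := by
  let f : ℤ × ℤ →+ T := AddMonoidHom.coprod ((zmultiplesHom T) al) ((zmultiplesHom T) be)
  have h0 : Ltc al be = f.ker := by
    ext ⟨i, j⟩
    rw [mem_Ltc, AddMonoidHom.mem_ker]
    simp [f]
  rw [h0, AddSubgroup.index_ker]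
  have h : f.range = ⊤ := by
    rw [AddMonoidHom.range_eq_top]
    intro m
    obtain ⟨i, j, rfl⟩ := hg m
    exact ⟨(i, j), by simp [f]⟩
  rw [h]
  exact Nat.card_congr AddSubgroup.topEquiv.toEquiv

end lattice

end Pool.Agent.Lib.MP_688fd0_co.SQ5.H24
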