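import Mathlib
import Pool.Agent.Lib.MP_688fd0_co.SQ5.H24.ExGeo

/-!
MP_688fd0_co, type C2, case B3: of any two letters one is admissible as strip letter (helper24, for helper20's choice of the
strip letter `t` with `s_t ^ 2` not central).
-/

set_option autoImplicit false

namespace Pool.Agent.Lib.MP_688fd0_co.SQ5.H24

open Pool.Agent.Lib.MP_688fd0_co.SQ5.H66 Pool.Agent.Lib.MP_688fd0_co.SQ5.H76

section lat

variable {T : Type*} [AddCommGroup T]

/-- The relation of a lattice vector. -/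
theorem rel_of_InL (h : Fin 3 → T) {t a b : Fin 3} (hta : t ≠ a) (htb : t ≠ b) (hab : a ≠ b) {i j : ℤ}
    (hij : InL (h a - h t) (h b - h t) i j) :
    ∃ n : Fin 3 → ℤ, Rel h n ∧ n a = i ∧ n b = j ∧ n t = -(i + j) := by
  refine ⟨fun x => if x = a then i else if x = b then j else -(i + j), ⟨?_, ?_⟩, by simp, ?_, ?_⟩
  · have e := sum_mid t a b hta htb hab (fun x => if x = a then i else if x = b then j else -(i + j))
    rw [← e]
    simp only [if_true, hta, htb, hab.symm, if_false]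
    ring
  · have e := sum_mid t a b hta htb hab
      (fun x => ((if x = a then i else if x = b then j else -(i + j)) : ℤ) • h x)
    rw [← e]
    simp only [if_true, hta, htb, hab.symm, if_false]
    unfold InL at hij
    rw [← hij]
    module
  · simp [hab.symm]
  · simp [hta, htb]

theorem three_letters {t a b : Fin 3} (hta : t ≠ a) (htb : t ≠ b) (hab : a ≠ b) (x : Fin 3) : x = t ∨ x = a ∨ x = b := by
  revert hta htb hab
  fin_cases t <;> fin_cases a <;> fin_cases b <;> fin_cases x <;> simp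

/-- No short vector. -/
theorem zero_of_far (h : Fin 3 → T) {Λ : ℤ} (hfar : ∀ n : Fin 3 → ℤ, Rel h n → (∀ x, |n x| < Λ) → n = 0)
    {t a b : Fin 3} (hta : t ≠ a) (htb : t ≠ b) (hab : a ≠ b) {i j : ℤ}
    (hij : InL (h a - h t) (h b - h t) i j) (h1 : |i| < Λ) (h2 : |j| < Λ) (h3 : |i + j| < Λ) : i = 0 ∧ j = 0 := by
  obtain ⟨n', hn', ha, hb, ht⟩ := rel_of_InL h hta htb hab hij
  have hall : ∀ x, |n' x| < Λ := by
    intro x
    rcases three_letters hta htb hab x with rfl | rfl | rfl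
    · rw [ht, abs_neg]; exact h3
    · rw [ha]; exact h1
    · rw [hb]; exact h2
  have := hfar n' hn' hall
  rw [this] at ha hb
  exact ⟨ha.symm, hb.symm⟩

/-- The minimal vector for the strip letter `t`. -/
theorem min_vec [Finite T] (h : Fin 3 → T) {K : ℕ} (hK : 1 ≤ K) {Λ : ℤ} (hΛ : 2 * (K : ℤ) ≤ Λ)
    (hfar : ∀ n : Fin 3 → ℤ, Rel h n → (∀ x, |n x| < Λ) → n = 0) {t a b : Fin 3} (hta : t ≠ a) (htb : t ≠ b) (hab : a ≠ b) :
    ∃ i j : ℤ, InL (h a - h t) (h b - h t) i j ∧ |i - j| < 2 * K ∧ 0 < i + j ∧ (i + j) * K ≤ Nat.card T ∧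
      ∀ i' j' : ℤ, InL (h a - h t) (h b - h t) i' j' → i * j' = j * i' → ∃ q : ℤ, i' = q * i ∧ j' = q * j := by
  refine exists_min _ _ K hK ?_
  intro i j hij hs hc
  refine (zero_of_far h hfar hta htb hab hij ?_ ?_ ?_).1
  · rw [abs_lt] at hc ⊢; constructor <;> omega
  · rw [abs_lt] at hc ⊢; constructor <;> omega
  · rw [hs]; simp; omega

/-- Of two letters one is admissible. -/
theorem basis_two [Finite T] (h : Fin 3 → T)
    (hg : ∀ t a b : Fin 3, t ≠ a → t ≠ b → a ≠ b → Gn (h a - h t) (h b - h t))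
    (K E : ℕ) (hK : 1 ≤ K)
    (hfar : ∀ n : Fin 3 → ℤ, Rel h n → (∀ x, |n x| < 4 * K) → n = 0)
    (hM : (E + 2 * K) ^ 2 < Nat.card T) {t t' : Fin 3} (htt : t ≠ t') :
    ∃ s, (s = t ∨ s = t') ∧ ∃ a b : Fin 3, s ≠ a ∧ s ≠ b ∧ a ≠ b ∧ ∃ i j : ℤ, InL (h a - h s) (h b - h s) i j ∧
      0 ≤ i - j ∧ i - j < 2 * K ∧ (E : ℤ) < i + j ∧ (i + j) * K ≤ Nat.card T ∧
      ∀ i' j' : ℤ, InL (h a - h s) (h b - h s) i' j' → i * j' = j * i' → ∃ q : ℤ, i' = q * i ∧ j' = q * j := by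
  obtain ⟨d, hd, hd'⟩ : ∃ d : Fin 3, t ≠ d ∧ t' ≠ d := by
    revert htt
    fin_cases t <;> fin_cases t' <;> decide
  obtain ⟨i, j, hij, hc, hl, hlK, hprim⟩ := min_vec h hK (Λ := 4 * K) (by omega) hfar htt hd hd'
  obtain ⟨i', j', hij', hc', hl', hlK', hprim'⟩ := min_vec h hK (Λ := 4 * K) (by omega) hfar htt.symm hd' hd
  -- orientation
  have orient : ∀ {s a b : Fin 3} {i j : ℤ}, s ≠ a → s ≠ b → a ≠ b → InL (h a - h s) (h b - h s) i j → |i - j| < 2 * K →
      (E : ℤ) < i + j → (i + j) * K ≤ Nat.card T →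
      (∀ i' j' : ℤ, InL (h a - h s) (h b - h s) i' j' → i * j' = j * i' → ∃ q : ℤ, i' = q * i ∧ j' = q * j) →
      ∃ a b : Fin 3, s ≠ a ∧ s ≠ b ∧ a ≠ b ∧ ∃ i j : ℤ, InL (h a - h s) (h b - h s) i j ∧
      0 ≤ i - j ∧ i - j < 2 * K ∧ (E : ℤ) < i + j ∧ (i + j) * K ≤ Nat.card T ∧
      ∀ i' j' : ℤ, InL (h a - h s) (h b - h s) i' j' → i * j' = j * i' → ∃ q : ℤ, i' = q * i ∧ j' = q * j := by
    intro s a b i j hsa hsb hab hij hc hE hlK hprim
    rcases le_total 0 (i - j) with hs | hs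
    · exact ⟨a, b, hsa, hsb, hab, i, j, hij, hs, by rw [abs_of_nonneg hs] at hc; exact hc, hE, hlK, hprim⟩
    · refine ⟨b, a, hsb, hsa, hab.symm, j, i, ?_, by linarith, ?_, by linarith, by linarith, ?_⟩
      · unfold InL at *; rw [← hij]; abel
      · rw [abs_of_nonpos hs] at hc; linarith
      · intro i' j' h' hp
        obtain ⟨q, e1, e2⟩ := hprim j' i' (by unfold InL at *; rw [← h']; abel) hp.symm
        exact ⟨q, e2, e1⟩
  by_cases hE : (E : ℤ) < i + j
  · exact ⟨t, Or.inl rfl, orient htt hd hd' hij hc hE hlK hprim⟩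
  by_cases hE' : (E : ℤ) < i' + j'
  · exact ⟨t', Or.inr rfl, orient htt.symm hd' hd hij' hc' hE' hlK' hprim'⟩
  exfalso
  push Not at hE hE'
  -- the second vector in the coordinates of the first
  have hv : InL (h t' - h t) (h d - h t) (-(i' + j')) j' := by
    unfold InL at hij' ⊢
    rw [← hij']
    module
  rw [abs_lt] at hc hc'
  by_cases hD : i * j' - j * (-(i' + j')) = 0
  · obtain ⟨q, hq1, hq2⟩ := hprim _ _ hv (by linarith)
    have hq : q ≠ 0 := by
      rintro rfl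
      linarith
    have e : i' - j' = -(q * (i + 2 * j)) := by linear_combination -hq1 - 2 * hq2
    have hqp : 1 ≤ |q| := Int.one_le_abs hq
    have h5 : |i + 2 * j| < 2 * K := by
      have h6 : |q| * |i + 2 * j| < 2 * K := by
        rw [← abs_mul, ← abs_neg, ← e]
        exact abs_lt.2 hc'
      have h7 : 1 * |i + 2 * j| ≤ |q| * |i + 2 * j| := mul_le_mul_of_nonneg_right hqp (abs_nonneg _)
      linarith
    rw [abs_lt] at h5
    have := zero_of_far h hfar htt hd hd' hij (by rw [abs_lt]; constructor <;> omega)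
      (by rw [abs_lt]; constructor <;> omega) (by rw [abs_lt]; constructor <;> omega)
    omega
  · have h1 : (Nat.card T : ℤ) ≤ |i * j' - j * (-(i' + j'))| := InL.det (hg t t' d htt hd hd') hij hv hD
    have h2 : |i * j' - j * (-(i' + j'))| ≤ |i| * |j'| + |j| * |-(i' + j')| := by
      rw [← abs_mul, ← abs_mul]; exact abs_sub _ _
    have hi : |i| + |j| ≤ E + 2 * K := by
      rcases abs_cases i with ⟨e1, e1'⟩ | ⟨e1, e1'⟩ <;> rcases abs_cases j with ⟨e2, e2'⟩ | ⟨e2, e2'⟩ <;>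
        rw [e1, e2] <;> omega
    have hj' : |j'| ≤ E + 2 * K := by
      rw [abs_le]; constructor <;> omega
    have hij'' : |-(i' + j')| ≤ E + 2 * K := by
      rw [abs_le]; constructor <;> omega
    have h3 : |i| * |j'| ≤ |i| * (E + 2 * K) := mul_le_mul_of_nonneg_left hj' (abs_nonneg _)
    have h4 : |j| * |-(i' + j')| ≤ |j| * (E + 2 * K) := mul_le_mul_of_nonneg_left hij'' (abs_nonneg _)
    have h5 : (|i| + |j|) * (E + 2 * K) ≤ ((E : ℤ) + 2 * K) * (E + 2 * K) :=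
      mul_le_mul_of_nonneg_right hi (by positivity)
    have h6 : (((E + 2 * K) ^ 2 : ℕ) : ℤ) < Nat.card T := by exact_mod_cast hM
    push_cast at h6
    nlinarith

/-- For one of two given letters: the vector `w_0`, and for this vector every layout which is not too wide (the caller may
choose the widths after the vector). -/
theorem exists_vec [Finite T] (h : Fin 3 → T)
    (hg : ∀ t a b : Fin 3, t ≠ a → t ≠ b → a ≠ b → Gn (h a - h t) (h b - h t)) {kq hh m TT G : ℤ}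
    (hn : Nums kq hh m TT G) (K E : ℕ) (hK1 : 1 ≤ K)
    (hE : (2 * (K : ℤ) + 4 * hh + 6) * (G + 8 * kq + 40) ≤ E)
    (hfar : ∀ n : Fin 3 → ℤ, Rel h n → (∀ x, |n x| < 4 * K) → n = 0)
    (hM : (E + 2 * K) ^ 2 < Nat.card T) {t t' : Fin 3} (htt : t ≠ t') :
    ∃ s, (s = t ∨ s = t') ∧ ∃ a b : Fin 3, s ≠ a ∧ s ≠ b ∧ a ≠ b ∧ ∃ i0 j0 : ℤ,
      (0 ≤ i0 - j0 ∧ i0 - j0 < 2 * K ∧ (E : ℤ) < i0 + j0 ∧ (i0 + j0) * K ≤ Nat.card T) ∧
      ∀ {dc : ℕ → ℤ} {spc : ℕ → Prop} {R : ℕ → ℕ} {c ks : ℕ}, Cand dc spc R c ks →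
      (∀ j < 8, (i0 + j0) * (∑ k ∈ Finset.range (R j - 1), dc k + 3 * R j + (50 + 8 * hh + 16 * kq)) ≤
        2 * (Nat.card T : ℤ)) →
      ∃ j < 8, ∃ g : Geo (Ltc (h a - h s) (h b - h s)) (Nat.card T) (R j) dc spc G, g.i0 = i0 ∧ g.j0 = j0 ∧
        Lay g kq hh m TT ks := by
  obtain ⟨s, hs', a, b, hta, htb, hab, i, j, hij, hc0, hc1, hEl, hlK, hprim⟩ := basis_two h hg K E hK1 hfar hM htt
  obtain ⟨hk, hm, hh', hTT, hTG⟩ := id hn
  have hl0 : 0 < i + j := by have : (0 : ℤ) ≤ E := by positivity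
                             linarith
  have hlG : (i - j + 4 * hh + 6) * (G + 8 * kq + 40) ≤ i + j := by
    have : (i - j + 4 * hh + 6) * (G + 8 * kq + 40) ≤ (2 * (K : ℤ) + 4 * hh + 6) * (G + 8 * kq + 40) :=
      mul_le_mul_of_nonneg_right (by linarith) (by linarith)
    linarith
  refine ⟨s, hs', a, b, hta, htb, hab, i, j, ⟨hc0, hc1, hEl, hlK⟩, ?_⟩
  intro dc spc R c ks hC hw
  exact exists_gen (index_Ltc (hg s a b hta htb hab)) Nat.card_pos.ne' (mem_Ltc.2 hij) hc0 hl0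
    (fun i j h1 h2 => hprim i j (mem_Ltc.1 h1) h2) hn hlG hC hw

end lat

end Pool.Agent.Lib.MP_688fd0_co.SQ5.H24
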