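import Mathlib
import Pool.Agent.Lib.MP_688fd0_co.SQ5.H24.ExGeo2

/-!
MP_688fd0_co, type C2, case B3, DESIGN B' (helper20, finding 4349): THE LAYOUT (helper24).

The block: a MAIN GROUP of `m0 + 1` walls (`m0` aligned strips of widths `d 0, .., d (m0 - 1)`), then special strips (5 columns,
3 levels; the first one 3 or `3 + 8 TT` levels) separated by tiny groups of three aligned strips, the last of them followed by
the sea. Design B': `m0 = 2 r + w + 1` and `d = 4 ^ r, 6, 4 ^ (w - 1), 6, 4 ^ r`; the group `C` = the walls `r + 1, .., r + w`.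
-/

set_option autoImplicit false

namespace Pool.Agent.Lib.MP_688fd0_co.SQ5.H24

open Pool.Agent.Lib.MP_688fd0_co.SQ5.H66 Pool.Agent.Lib.MP_688fd0_co.SQ5.H76

/-- The special strips. -/
def spL (m0 k : ℕ) : Prop := m0 ≤ k ∧ (k - m0) % 4 = 0

/-- The widths. -/
def dcL (m0 : ℕ) (d : ℕ → ℤ) (k : ℕ) : ℤ := if m0 ≤ k ∧ (k - m0) % 4 = 0 then 5 else d k

/-- The number of walls, `j + 1` special strips. -/
def RL (m0 j : ℕ) : ℕ := m0 + 4 * (j + 1) + 1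

theorem dcL_sp {m0 : ℕ} {d : ℕ → ℤ} {k : ℕ} (h : spL m0 k) : dcL m0 d k = 5 := if_pos h

theorem dcL_al {m0 : ℕ} {d : ℕ → ℤ} {k : ℕ} (h : ¬ spL m0 k) : dcL m0 d k = d k := if_neg h

open Classical in
theorem card_spL (m0 n : ℕ) : ((Finset.range (m0 + 4 * n)).filter (spL m0)).card = n := by
  induction n with
  | zero =>
    rw [Finset.card_eq_zero, Finset.filter_eq_empty_iff]
    intro k hk
    rw [Finset.mem_range] at hk
    unfold spL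
    omega
  | succ n ih =>
    have h2 : (Finset.range (m0 + 4 * (n + 1))).filter (spL m0) =
        insert (m0 + 4 * n) ((Finset.range (m0 + 4 * n)).filter (spL m0)) := by
      ext x
      simp only [Finset.mem_filter, Finset.mem_range, Finset.mem_insert]
      unfold spL
      omega
    rw [h2, Finset.card_insert_of_notMem (by simp), ih]

theorem candL {m0 : ℕ} (hm : 2 ≤ m0) {d : ℕ → ℤ} (hd : ∀ k, 2 ≤ d k ∧ d k % 2 = 0) :
    Cand (dcL m0 d) (spL m0) (RL m0) 1 m0 := by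
  refine ⟨⟨le_refl _, by omega⟩, ?_, ?_, ?_, ?_, ?_, ?_⟩
  · intro j _
    unfold RL
    omega
  · intro j _
    unfold RL
    omega
  · intro j _
    have h := card_spL m0 (j + 1)
    have e : RL m0 j - 1 = m0 + 4 * (j + 1) := by unfold RL; omega
    rw [e, h]
    omega
  · intro k hk
    rw [dcL_al hk]
    exact hd k
  · intro k hk
    rw [dcL_sp hk]
    constructor <;> norm_num
  · intro j _ k hk h
    unfold RL at hk ⊢
    unfold spL at h ⊢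
    omega

theorem dcL_pos {m0 : ℕ} {d : ℕ → ℤ} (hd : ∀ k, 2 ≤ d k ∧ d k % 2 = 0) (k : ℕ) : 2 ≤ dcL m0 d k := by
  unfold dcL
  split_ifs
  · norm_num
  · exact (hd k).1

theorem dcL_mono {m0 : ℕ} {d : ℕ → ℤ} (hd : ∀ k, 2 ≤ d k ∧ d k % 2 = 0) {m n : ℕ} (h : m ≤ n) :
    ∑ k ∈ Finset.range m, dcL m0 d k ≤ ∑ k ∈ Finset.range n, dcL m0 d k := by
  refine Finset.sum_le_sum_of_subset_of_nonneg ?_ ?_
  · intro x hx
    rw [Finset.mem_range] at hx ⊢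
    omega
  · intro k _ _
    have := dcL_pos (m0 := m0) hd k
    linarith

theorem card_RL {m0 j : ℕ} (hj : j < 8) : ((RL m0 j : ℕ) : ℤ) ≤ m0 + 33 := by
  have : RL m0 j ≤ m0 + 33 := by unfold RL; omega
  exact_mod_cast this

/-- THE LAYOUT, general form, fixed widths `d`. `kq`: modulus of the run lengths (in periods); `hh`, `m`: types of the events
(`Nums`, `Lay`). -/
theorem exists_layL {T : Type*} [AddCommGroup T] [Finite T] (h : Fin 3 → T)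
    (hg : ∀ t a b : Fin 3, t ≠ a → t ≠ b → a ≠ b → Gn (h a - h t) (h b - h t))
    {m0 : ℕ} (hm : 2 ≤ m0) {d : ℕ → ℤ} (hd : ∀ k, 2 ≤ d k ∧ d k % 2 = 0)
    {kq hh m TT G : ℤ} (hn : Nums kq hh m TT G) (K E : ℕ)
    (hK : ∑ k ∈ Finset.range (m0 + 32), dcL m0 d k + 3 * (m0 + 33) + (50 + 8 * hh + 16 * kq) ≤ 2 * (K : ℤ))
    (hE : (2 * (K : ℤ) + 4 * hh + 6) * (G + 8 * kq + 40) ≤ E)
    (hfar : ∀ n : Fin 3 → ℤ, Rel h n → (∀ x, |n x| < 4 * K) → n = 0)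
    (hM : (E + 2 * K) ^ 2 < Nat.card T) {t t' : Fin 3} (htt : t ≠ t') :
    ∃ s, (s = t ∨ s = t') ∧ ∃ a b : Fin 3, s ≠ a ∧ s ≠ b ∧ a ≠ b ∧ ∃ j < 8,
      ∃ g : Geo (Ltc (h a - h s) (h b - h s)) (Nat.card T) (RL m0 j) (dcL m0 d) (spL m0) G, Lay g kq hh m TT m0 ∧
      g.i0 - g.j0 < 2 * K ∧ (E : ℤ) < g.i0 + g.j0 ∧ (g.i0 + g.j0) * K ≤ Nat.card T := by
  obtain ⟨hk, hm', hh', hTT, hTG⟩ := id hn
  have h0 : (0 : ℤ) ≤ ∑ k ∈ Finset.range (m0 + 32), dcL m0 d k := by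
    have := dcL_mono (m0 := m0) hd (Nat.zero_le (m0 + 32))
    simpa using this
  have hm0 : (0 : ℤ) ≤ (m0 : ℤ) := Int.natCast_nonneg _
  obtain ⟨s, hs, a, b, h1, h2, h3, i0, j0, ⟨f1, f2, f3, f4⟩, f5⟩ := exists_vec h hg hn K E (by omega) hE hfar hM htt
  have hE0 : (0 : ℤ) ≤ E := Int.natCast_nonneg _
  obtain ⟨j, hj, g, e1, e2, e3⟩ := f5 (candL hm hd) (fun j hj => by
    have h1 := dcL_mono (m0 := m0) hd (show RL m0 j - 1 ≤ m0 + 32 by unfold RL; omega)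
    have h2 := card_RL (m0 := m0) hj
    have h3 := mul_le_mul_of_nonneg_left (show ∑ k ∈ Finset.range (RL m0 j - 1), dcL m0 d k + 3 * (RL m0 j : ℤ) +
      (50 + 8 * hh + 16 * kq) ≤ 2 * (K : ℤ) by linarith) (show 0 ≤ i0 + j0 by linarith)
    linarith)
  exact ⟨s, hs, a, b, h1, h2, h3, j, hj, g, e3, by rw [e1, e2]; exact f2, by rw [e1, e2]; exact f3,
    by rw [e1, e2]; exact f4⟩

/-! ### One wide strip -/

/-- The widths `d` with a wide strip `r0`. -/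
def dW (d : ℕ → ℤ) (r0 : ℕ) (D : ℤ) (k : ℕ) : ℤ := if k = r0 then D else d k

theorem dW_self (d : ℕ → ℤ) (r0 : ℕ) (D : ℤ) : dW d r0 D r0 = D := if_pos rfl

theorem dW_ne (d : ℕ → ℤ) {r0 k : ℕ} (D : ℤ) (h : k ≠ r0) : dW d r0 D k = d k := if_neg h

theorem sum_dW {m0 : ℕ} (d : ℕ → ℤ) {r0 : ℕ} (hr : r0 < m0) (D : ℤ) {n : ℕ} (hn : m0 ≤ n) :
    ∑ k ∈ Finset.range n, dcL m0 (dW d r0 D) k = ∑ k ∈ Finset.range n, dcL m0 (dW d r0 0) k + D := by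
  have h : ∀ k, dcL m0 (dW d r0 D) k = dcL m0 (dW d r0 0) k + if k = r0 then D else 0 := by
    intro k
    unfold dcL dW
    by_cases h1 : m0 ≤ k ∧ (k - m0) % 4 = 0
    · have h2 : k ≠ r0 := by omega
      simp [h1, h2]
    · by_cases h2 : k = r0
      · rw [if_neg h1, if_pos h2, if_neg h1, if_pos h2, if_pos h2, zero_add]
      · rw [if_neg h1, if_neg h2, if_neg h1, if_neg h2, if_neg h2, add_zero]
  rw [Finset.sum_congr rfl fun k _ => h k, Finset.sum_add_distrib, Finset.sum_ite_eq' (Finset.range n) r0 fun _ => D,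
    if_pos (Finset.mem_range.2 (by omega))]

/-- THE LAYOUT WITH A WIDE STRIP `r0`, whose width `D = 2 mod 4` is chosen maximal. -/
theorem exists_layW {T : Type*} [AddCommGroup T] [Finite T] (h : Fin 3 → T)
    (hg : ∀ t a b : Fin 3, t ≠ a → t ≠ b → a ≠ b → Gn (h a - h t) (h b - h t))
    {m0 r0 : ℕ} (hm : 2 ≤ m0) (hr0 : r0 < m0) {d : ℕ → ℤ} (hd : ∀ k, 2 ≤ d k ∧ d k % 2 = 0)
    {kq hh m TT G : ℤ} (hn : Nums kq hh m TT G) (K E : ℕ) {W : ℤ}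
    (hW : ∑ k ∈ Finset.range (m0 + 32), dcL m0 (dW d r0 0) k + 3 * (m0 + 33) + (54 + 8 * hh + 16 * kq) ≤ W)
    (hK : W + 6 ≤ 2 * (K : ℤ))
    (hE : (2 * (K : ℤ) + 4 * hh + 6) * (G + 8 * kq + 40) ≤ E)
    (hfar : ∀ n : Fin 3 → ℤ, Rel h n → (∀ x, |n x| < 4 * K) → n = 0)
    (hM : (E + 2 * K) ^ 2 < Nat.card T) {t t' : Fin 3} (htt : t ≠ t') :
    ∃ s, (s = t ∨ s = t') ∧ ∃ a b : Fin 3, s ≠ a ∧ s ≠ b ∧ a ≠ b ∧ ∃ D : ℤ, D % 4 = 2 ∧ 6 ≤ D ∧ 2 * K ≤ D + W ∧ ∃ j < 8,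
      ∃ g : Geo (Ltc (h a - h s) (h b - h s)) (Nat.card T) (RL m0 j) (dcL m0 (dW d r0 D)) (spL m0) G,
      Lay g kq hh m TT m0 ∧ 2 * (Nat.card T : ℤ) ≤ (g.i0 + g.j0) * (D + W) ∧
      g.i0 - g.j0 < 2 * K ∧ (E : ℤ) < g.i0 + g.j0 ∧ (g.i0 + g.j0) * K ≤ Nat.card T := by
  obtain ⟨hk, hm', hh', hTT, hTG⟩ := id hn
  have h0 : (0 : ℤ) ≤ ∑ k ∈ Finset.range (m0 + 32), dcL m0 (dW d r0 0) k := by
    refine Finset.sum_nonneg fun k _ => ?_
    unfold dcL dW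
    split_ifs
    · norm_num
    · norm_num
    · linarith [(hd k).1]
  have hm0 : (0 : ℤ) ≤ (m0 : ℤ) := Int.natCast_nonneg _
  obtain ⟨s, hs, a, b, h1, h2, h3, i0, j0, ⟨f1, f2, f3, f4⟩, f5⟩ := exists_vec h hg hn K E (by omega) hE hfar hM htt
  have hE0 : (0 : ℤ) ≤ E := Int.natCast_nonneg _
  have hl0 : 0 < i0 + j0 := by linarith
  set S := ∑ k ∈ Finset.range (m0 + 32), dcL m0 (dW d r0 0) k with hS
  obtain ⟨q, hq⟩ : ∃ q, q = 2 * (Nat.card T : ℤ) / (i0 + j0) := ⟨_, rfl⟩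
  have q1 : q * (i0 + j0) ≤ 2 * Nat.card T := by rw [hq]; exact Int.ediv_mul_le _ (ne_of_gt hl0)
  have q2 : 2 * (Nat.card T : ℤ) < (q + 1) * (i0 + j0) := by rw [hq]; exact Int.lt_ediv_add_one_mul_self _ hl0
  have q3 : 2 * (K : ℤ) ≤ q := by
    rw [hq]
    exact (Int.le_ediv_iff_mul_le hl0).2 (by linarith)
  obtain ⟨Y, hY⟩ : ∃ Y, Y = q - (S + 3 * (m0 + 33) + (50 + 8 * hh + 16 * kq)) := ⟨_, rfl⟩
  obtain ⟨D, hD4, hD1, hD2⟩ : ∃ D : ℤ, D % 4 = 2 ∧ D ≤ Y ∧ Y ≤ D + 3 := ⟨Y - (Y - 2) % 4, by omega, by omega, by omega⟩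
  have hD6 : 6 ≤ D := by omega
  have hdD : ∀ k, 2 ≤ dW d r0 D k ∧ dW d r0 D k % 2 = 0 := by
    intro k
    unfold dW
    split_ifs
    · omega
    · exact hd k
  obtain ⟨j, hj, g, e1, e2, e3⟩ := f5 (candL hm hdD) (fun j hj => by
    have h1 := dcL_mono (m0 := m0) hdD (show RL m0 j - 1 ≤ m0 + 32 by unfold RL; omega)
    rw [sum_dW d hr0 D (show m0 ≤ m0 + 32 by omega), ← hS] at h1
    have h2 := card_RL (m0 := m0) hj
    have h3 := mul_le_mul_of_nonneg_left (show ∑ k ∈ Finset.range (RL m0 j - 1), dcL m0 (dW d r0 D) k +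
      3 * (RL m0 j : ℤ) + (50 + 8 * hh + 16 * kq) ≤ q by linarith) (show 0 ≤ i0 + j0 by linarith)
    linarith)
  refine ⟨s, hs, a, b, h1, h2, h3, D, hD4, hD6, by linarith, j, hj, g, e3, ?_, by rw [e1, e2]; exact f2,
    by rw [e1, e2]; exact f3, by rw [e1, e2]; exact f4⟩
  rw [e1, e2]
  have h4 : (q + 1) * (i0 + j0) ≤ (D + W) * (i0 + j0) := mul_le_mul_of_nonneg_right (by linarith) hl0.le
  linarith

/-! ### Design B' -/

/-- The widths of the main group of design B': `4 ^ r, 6, 4 ^ (w - 1), 6, 4 ^ r`. -/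
def dB (r w k : ℕ) : ℤ := if k = r ∨ k = r + w then 6 else 4

theorem dB_ok (r w k : ℕ) : 2 ≤ dB r w k ∧ dB r w k % 2 = 0 := by
  unfold dB
  split_ifs <;> constructor <;> norm_num

theorem dB_six {r w k : ℕ} (h : k = r ∨ k = r + w) : dB r w k = 6 := if_pos h

theorem dB_four {r w k : ℕ} (h1 : k ≠ r) (h2 : k ≠ r + w) : dB r w k = 4 := if_neg (by omega)

theorem dcL_le (r w m0 k : ℕ) : dcL m0 (dB r w) k ≤ 6 := by
  unfold dcL dB
  split_ifs <;> norm_num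

/-- THE LAYOUT OF DESIGN B', for one of any two letters. `R ≤ 2 r + w + 34` walls in a block; `m` should be at least
`10 (2 r + w + 42)`. -/
theorem exists_layB {T : Type*} [AddCommGroup T] [Finite T] (h : Fin 3 → T)
    (hg : ∀ t a b : Fin 3, t ≠ a → t ≠ b → a ≠ b → Gn (h a - h t) (h b - h t))
    {r w : ℕ} (hr : 1 ≤ r) {kq hh m TT G : ℤ} (hn : Nums kq hh m TT G) (K E : ℕ)
    (hK : 9 * (2 * r + w + 34) + (50 + 8 * hh + 16 * kq) ≤ 2 * (K : ℤ))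
    (hE : (2 * (K : ℤ) + 4 * hh + 6) * (G + 8 * kq + 40) ≤ E)
    (hfar : ∀ n : Fin 3 → ℤ, Rel h n → (∀ x, |n x| < 4 * K) → n = 0)
    (hM : (E + 2 * K) ^ 2 < Nat.card T) {t t' : Fin 3} (htt : t ≠ t') :
    ∃ s, (s = t ∨ s = t') ∧ ∃ a b : Fin 3, s ≠ a ∧ s ≠ b ∧ a ≠ b ∧ ∃ R : ℕ, 2 * r + w + 6 ≤ R ∧ R ≤ 2 * r + w + 34 ∧
      ∃ g : Geo (Ltc (h a - h s) (h b - h s)) (Nat.card T) R (dcL (2 * r + w + 1) (dB r w)) (spL (2 * r + w + 1)) G,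
      Lay g kq hh m TT (2 * r + w + 1) ∧
      g.i0 - g.j0 < 2 * K ∧ (E : ℤ) < g.i0 + g.j0 ∧ (g.i0 + g.j0) * K ≤ Nat.card T := by
  obtain ⟨s, hs, a, b, h1, h2, h3, j, hj, g, h4⟩ := exists_layL h hg (m0 := 2 * r + w + 1) (by omega) (dB_ok r w)
    hn K E (by
      have h1 : ∑ k ∈ Finset.range (2 * r + w + 1 + 32), dcL (2 * r + w + 1) (dB r w) k ≤ 6 * (2 * r + w + 33) := by
        refine (Finset.sum_le_sum fun k _ => dcL_le r w _ k).trans ?_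
        rw [Finset.sum_const, Finset.card_range, nsmul_eq_mul]
        push_cast
        linarith
      push_cast
      linarith) hE hfar hM htt
  exact ⟨s, hs, a, b, h1, h2, h3, RL (2 * r + w + 1) j, by unfold RL; omega, by unfold RL; omega, g, h4⟩

/-- LEVEL 3: the main group `4 ^ r, 6, 4 ^ (w - 1), D, 4 ^ (w - 1), 6, 4 ^ r` (the strips `r`, `r + w`, `r + 2 w`), the two
groups `C'` = the walls `r + 1, .., r + w` and `C` = the walls `r + w + 1, .., r + 2 w`. -/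
theorem exists_layT {T : Type*} [AddCommGroup T] [Finite T] (h : Fin 3 → T)
    (hg : ∀ t a b : Fin 3, t ≠ a → t ≠ b → a ≠ b → Gn (h a - h t) (h b - h t))
    {r w : ℕ} (hr : 1 ≤ r) {kq hh m TT G : ℤ} (hn : Nums kq hh m TT G) (K E : ℕ) {W : ℤ}
    (hW : 9 * (2 * r + 2 * w + 34) + (54 + 8 * hh + 16 * kq) ≤ W) (hK : W + 6 ≤ 2 * (K : ℤ))
    (hE : (2 * (K : ℤ) + 4 * hh + 6) * (G + 8 * kq + 40) ≤ E)
    (hfar : ∀ n : Fin 3 → ℤ, Rel h n → (∀ x, |n x| < 4 * K) → n = 0)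
    (hM : (E + 2 * K) ^ 2 < Nat.card T) {t t' : Fin 3} (htt : t ≠ t') :
    ∃ s, (s = t ∨ s = t') ∧ ∃ a b : Fin 3, s ≠ a ∧ s ≠ b ∧ a ≠ b ∧ ∃ D : ℤ, D % 4 = 2 ∧ 6 ≤ D ∧ 2 * K ≤ D + W ∧
      ∃ R : ℕ, 2 * r + 2 * w + 6 ≤ R ∧ R ≤ 2 * r + 2 * w + 34 ∧
      ∃ g : Geo (Ltc (h a - h s) (h b - h s)) (Nat.card T) R (dcL (2 * r + 2 * w + 1) (dW (dB r (2 * w)) (r + w) D))
        (spL (2 * r + 2 * w + 1)) G,
      Lay g kq hh m TT (2 * r + 2 * w + 1) ∧ 2 * (Nat.card T : ℤ) ≤ (g.i0 + g.j0) * (D + W) ∧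
      g.i0 - g.j0 < 2 * K ∧ (E : ℤ) < g.i0 + g.j0 ∧ (g.i0 + g.j0) * K ≤ Nat.card T := by
  obtain ⟨s, hs, a, b, h1, h2, h3, D, d1, d2, d3, j, hj, g, h4⟩ := exists_layW h hg (m0 := 2 * r + 2 * w + 1)
    (r0 := r + w) (by omega) (by omega) (dB_ok r (2 * w)) hn K E (W := W) (by
      have h1 : ∑ k ∈ Finset.range (2 * r + 2 * w + 1 + 32), dcL (2 * r + 2 * w + 1) (dW (dB r (2 * w)) (r + w) 0) k ≤
          6 * (2 * r + 2 * w + 33) := by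
        refine (Finset.sum_le_sum (g := fun _ => (6 : ℤ)) fun k _ => ?_).trans ?_
        · unfold dcL dW dB
          split_ifs <;> norm_num
        · rw [Finset.sum_const, Finset.card_range, nsmul_eq_mul]
          push_cast
          linarith
      push_cast
      linarith) hK hE hfar hM htt
  exact ⟨s, hs, a, b, h1, h2, h3, D, d1, d2, d3, RL (2 * r + 2 * w + 1) j, by unfold RL; omega, by unfold RL; omega, g,
    h4⟩

end Pool.Agent.Lib.MP_688fd0_co.SQ5.H24
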