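import Pool.Agent.Lib.MP_688fd0_co.SQ5.N.Iface

/-!
C2, NEAR-3, row C1N (helper24): the choice of `C₁ = C ⊔ ⟨relN a t b (m k) (n k)⟩`.

In `Γ / C` (`Γ = ker eps`) the image of `N` is central, so `x ↦ x ^ k` is a homomorphism (transfer to the centre).
-/

set_option autoImplicit false

namespace Pool.Agent.Lib.MP_688fd0_co.SQ5.N

open Pool.Agent.Lib.MP_688fd0_co.OSF Pool.Agent.Lib.MP_688fd0_co.SQ2 Pool.Agent.Lib.MP_688fd0_co.SQ3
open Pool.Agent.Lib.MP_688fd0_co.SQ4
open Subgroup

/-- In a group whose centre has an index dividing `k` the power map `x ↦ x ^ k` is a homomorphism. -/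
theorem mul_pow_of_center {R : Type*} [Group R] [Finite R] {k : ℕ} (h : (center R).index ∣ k) (u v : R) :
    (u * v) ^ k = u ^ k * v ^ k := by
  obtain ⟨j, rfl⟩ := h
  have h1 : (u * v) ^ (center R).index = u ^ (center R).index * v ^ (center R).index := by
    have h2 := congrArg (Subtype.val) (map_mul (MonoidHom.transferCenterPow R) u v)
    rw [Subgroup.coe_mul, MonoidHom.transferCenterPow_apply, MonoidHom.transferCenterPow_apply,
      MonoidHom.transferCenterPow_apply] at h2
    exact h2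
  have h3 : Commute (u ^ (center R).index) (v ^ (center R).index) := by
    have h4 : u ^ (center R).index ∈ center R := by
      rw [← MonoidHom.transferCenterPow_apply]
      exact (MonoidHom.transferCenterPow R u).2
    exact ((mem_center_iff.1 h4) (v ^ (center R).index)).symm
  rw [pow_mul, h1, h3.mul_pow, ← pow_mul, ← pow_mul]

/-- Modulo `C`, `x ↦ x ^ k` is a homomorphism on `ker eps`. -/
theorem pow_mod_C {G : Type*} [Group G] [Finite G] {N C : Subgroup G} {eps : G →* ℤˣ} {k P : ℕ} (h : GN N C eps k P)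
    (x y : G) (hx : eps x = 1) (hy : eps y = 1) : ((x * y) ^ k)⁻¹ * (x ^ k * y ^ k) ∈ C := by
  have hCn := h.Cn
  have hNn := h.Nn
  have hNE : N ≤ eps.ker := fun n hn => h.eN n hn
  have hC' : (C.subgroupOf eps.ker).Normal := inferInstance
  let π := QuotientGroup.mk' (C.subgroupOf eps.ker)
  have hsurj : Function.Surjective π := QuotientGroup.mk'_surjective _
  have hle : N.subgroupOf eps.ker ≤ (center (eps.ker ⧸ C.subgroupOf eps.ker)).comap π := by
    rintro ⟨n, hn⟩ hn'
    rw [mem_subgroupOf] at hn'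
    rw [mem_comap, mem_center_iff]
    intro g
    obtain ⟨⟨g, hg⟩, rfl⟩ := hsurj g
    rw [← map_mul, ← map_mul]
    symm
    apply QuotientGroup.eq.2
    rw [mem_subgroupOf]
    have h1 := h.act n hn' g
    have hg1 : eps g = 1 := hg
    rw [hg1] at h1
    simp only [Units.val_one, zpow_one] at h1
    have h2 := hCn.conj_mem _ h1 (g⁻¹ * n⁻¹)
    have e : g⁻¹ * n⁻¹ * (g * n * g⁻¹ * n⁻¹) * (g⁻¹ * n⁻¹)⁻¹ = (n * g)⁻¹ * (g * n) := by group
    rw [e] at h2
    exact h2
  have hidx : (center (eps.ker ⧸ C.subgroupOf eps.ker)).index ∣ k := by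
    have h1 : ((center (eps.ker ⧸ C.subgroupOf eps.ker)).comap π).index =
      (center (eps.ker ⧸ C.subgroupOf eps.ker)).index := index_comap_of_surjective _ hsurj
    have h2 := index_dvd_of_le hle
    rw [h1] at h2
    have h3 : (N.subgroupOf eps.ker).index ∣ N.index := ⟨eps.ker.index, by
      rw [← relIndex]
      exact (relIndex_mul_index hNE).symm⟩
    rw [h.idx] at h3
    exact h2.trans h3
  have hmul := mul_pow_of_center hidx (π ⟨x, hx⟩) (π ⟨y, hy⟩)
  rw [← map_mul, ← map_pow, ← map_pow, ← map_pow, ← map_mul] at hmul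
  have h2 := QuotientGroup.eq.1 hmul
  rw [mem_subgroupOf] at h2
  exact h2

/-- The value of the relation with `k`-fold exponents. -/
theorem rel_mk {G : Type} [Group G] [Finite G] {N C : Subgroup G} {eps : G →* ℤˣ} {k P : ℕ} (h : GN N C eps k P)
    {a t b : G} (hI : InvG eps a t b) (m n : ℕ) :
    ∃ c ∈ C, relN a t b (m * k) (n * k) = (relN a t b m n) ^ k * c := by
  have e1 : eps ((a * t) ^ m) = 1 := by rw [map_pow, map_mul, hI.ea, hI.et]; simp
  have e2 : eps (((t * b) ^ n)⁻¹) = 1 := by rw [map_inv, map_pow, map_mul, hI.et, hI.eb]; simp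
  have h1 := pow_mod_C h _ _ e1 e2
  refine ⟨_, h1, ?_⟩
  unfold relN
  rw [mul_inv_cancel_left, pow_mul, pow_mul, inv_pow]

theorem rel_mem_N {G : Type} [Group G] [Finite G] {N C : Subgroup G} {eps : G →* ℤˣ} {k P : ℕ} (h : GN N C eps k P)
    (a t b : G) (m n : ℕ) : relN a t b (m * k) (n * k) ∈ N := by
  have hNn := h.Nn
  unfold relN
  rw [pow_mul, pow_mul]
  have h1 := pow_index_mem N ((a * t) ^ m)
  have h2 := pow_index_mem N ((t * b) ^ n)
  rw [h.idx] at h1 h2
  exact N.mul_mem h1 (N.inv_mem h2)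

theorem card_sup_zpowers {G : Type*} [Group G] (C : Subgroup G) [C.Normal] (r : G) :
    ∃ d, d ∣ orderOf r ∧ Nat.card (C ⊔ zpowers r : Subgroup G) = Nat.card C * d := by
  refine ⟨C.relIndex (zpowers r), ?_, ?_⟩
  · rw [← Nat.card_zpowers]
    exact relIndex_dvd_card _ _
  · have h1 := relIndex_mul_relIndex ⊥ C (C ⊔ zpowers r) bot_le le_sup_left
    rw [relIndex_bot_left, relIndex_bot_left, relIndex_sup_left] at h1
    exact h1.symm

/-- C1N. -/
theorem c1N : C1NS := by
  intro G _ _ N C eps k P h a t b τ m n hI hm hmτ hn hnτ hP hbig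
  have hCn := h.Cn
  have hk : 0 < k := by
    rw [← h.idx]
    exact Nat.pos_of_ne_zero N.index_ne_zero_of_finite
  set r := relN a t b (m * k) (n * k) with hr
  obtain ⟨d, hd, hcard⟩ := card_sup_zpowers C r
  refine ⟨C ⊔ zpowers r, ⟨hI, h, le_sup_left, sup_le h.CN ((zpowers_le).2 (rel_mem_N h a t b m n)), ?_, hbig,
    Nat.mul_pos hm hk, Nat.mul_le_mul_right k hmτ, Nat.mul_pos hn hk, Nat.mul_le_mul_right k hnτ,
    (le_sup_right : zpowers r ≤ C ⊔ zpowers r) (mem_zpowers r), ?_⟩⟩
  · -- `P` does not divide the order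
    intro hdiv
    rw [hcard] at hdiv
    rcases (Nat.Prime.dvd_mul h.prime).1 hdiv with h1 | h1
    · exact h.ndvd h1
    · have h2 := h1.trans hd
      obtain ⟨c, hc, hrc⟩ := rel_mk h hI m n
      rw [← hr] at hrc
      have hrN : r ∈ N := rel_mem_N h a t b m n
      have hcN : c ∈ N := h.CN hc
      have hρN : (relN a t b m n) ^ k ∈ N := by
        have e : (relN a t b m n) ^ k = r * c⁻¹ := by rw [hrc]; group
        rw [e]
        exact N.mul_mem hrN (N.inv_mem hcN)
      have hcomm : Commute ((relN a t b m n) ^ k) c := SQ2.H41.comm_of_cyclic N h.Nc _ hρN _ hcN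
      have h3 : orderOf r ∣ orderOf ((relN a t b m n) ^ k) * orderOf c := by
        rw [hrc]
        exact hcomm.orderOf_mul_dvd_mul_orderOf
      rcases (Nat.Prime.dvd_mul h.prime).1 (h2.trans h3) with h4 | h4
      · exact hP (h4.trans (orderOf_pow_dvd k))
      · apply h.ndvd
        refine h4.trans ?_
        have := orderOf_dvd_natCard (⟨c, hc⟩ : C)
        rwa [Subgroup.orderOf_mk] at this
  · intro p hp hpC
    have hpp := Nat.prime_of_mem_primeFactors hp
    have hpd := Nat.dvd_of_mem_primeFactors hp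
    rw [hcard] at hpd
    rcases (Nat.Prime.dvd_mul hpp).1 hpd with h1 | h1
    · exact absurd h1 hpC
    · exact h1.trans hd

end Pool.Agent.Lib.MP_688fd0_co.SQ5.N
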