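import Pool.Agent.Lib.MP_688fd0_co.SQ5.H24.Hgt

/-!
C2, LEVEL 3 (helper24): DICHO. If all triples which are not commutative modulo `N` and whose `P`-heights are not all equal have
short relations then all triples have short relations, and the `P`-heights are pairwise different.

`h a = - n c`, `h t = 0`, `h b = m c` (at every prime of `N₁`); every letter `f` has a noncommutative triple with two of
`a, t, b`, so `v h f = u c` with `|u| ≤ 3 τ ^ 2`, `0 < |v| ≤ τ`.
-/

set_option autoImplicit false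

namespace Pool.Agent.Lib.MP_688fd0_co.SQD.H24

open Pool.Agent.Lib.MP_688fd0_co.OSF Pool.Agent.Lib.MP_688fd0_co.SQ3
open Subgroup

/-- A small integer is invertible modulo a large prime. -/
theorem int_ne_zero {p : ℕ} {x : ℤ} (hx : x ≠ 0) {B : ℤ} (h : |x| ≤ B) (hB : B < p) : ((x : ℤ) : ZMod p) ≠ 0 := by
  rw [Ne, ZMod.intCast_zmod_eq_zero_iff_dvd]
  intro hd
  exact hx (Int.eq_zero_of_abs_lt_dvd hd (by linarith))

theorem abs_mul_le {x y X Y : ℤ} (hx : |x| ≤ X) (hy : |y| ≤ Y) : |x * y| ≤ X * Y := by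
  rw [abs_mul]
  exact mul_le_mul hx hy (abs_nonneg _) ((abs_nonneg _).trans hx)

theorem abs_sub_le' {x y X Y : ℤ} (hx : |x| ≤ X) (hy : |y| ≤ Y) : |x - y| ≤ X + Y :=
  (abs_sub x y).trans (add_le_add hx hy)

theorem abs_add_le' {x y X Y : ℤ} (hx : |x| ≤ X) (hy : |y| ≤ Y) : |x + y| ≤ X + Y :=
  (abs_add_le x y).trans (add_le_add hx hy)

/-- DICHO. -/
theorem dicho : DichoS := by
  intro G _ _ N C eps k P A c₁ a t b τ hI hmarg hτ hnear
  have hg := hI.gn
  have hNn := hg.Nn
  have hinv := hI.inv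
  have hneg := hI.neg
  have hii : ∀ s ∈ A, s⁻¹ = s := fun s hs => inv_eq_of_mul_eq_one_right (hinv s hs)
  have haA := hI.aA
  have htA := hI.tA
  have hbA := hI.bA
  have hτ1 : (1 : ℤ) ≤ τ := by exact_mod_cast hτ
  -- the primes
  let Q : ℕ → Prop := fun p => p ∈ (Nat.card N).primeFactors ∧ ¬ p ∣ Nat.card C
  have hQp : ∀ p, Q p → p.Prime := fun p hp => Nat.prime_of_mem_primeFactors hp.1
  have hQN : ∀ p, Q p → p ∣ Nat.card N := fun p hp => Nat.dvd_of_mem_primeFactors hp.1
  have hQP : Q P := ⟨Nat.mem_primeFactors.2 ⟨hg.prime, hg.dvd, Nat.card_pos.ne'⟩, hg.ndvd⟩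
  have hQm : ∀ p, Q p → (64 : ℤ) * τ ^ 6 < p := fun p hp => by exact_mod_cast hmarg p hp.1
  -- powers of τ
  have t2 : (τ : ℤ) ≤ τ ^ 2 := by nlinarith
  have t3 : (τ : ℤ) ^ 2 ≤ τ ^ 3 := pow_le_pow_right₀ hτ1 (by norm_num)
  have t4 : (τ : ℤ) ^ 3 ≤ τ ^ 4 := pow_le_pow_right₀ hτ1 (by norm_num)
  have t6 : (τ : ℤ) ^ 4 ≤ τ ^ 6 := pow_le_pow_right₀ hτ1 (by norm_num)
  have t0 : (0 : ℤ) < τ ^ 6 := by positivity
  -- the heights
  have hφ : ∀ p, Q p → ∃ φ : G → ZMod p, (∀ x y, eps x = 1 → eps y = 1 → φ (x * y) = φ x + φ y) ∧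
      ∀ x, eps x = 1 → (φ x = 0 ↔ ¬ p ∣ orderOf x) := fun p hp => exists_phi hg (hQp p hp) (hQN p hp) hp.2
  choose! φ φmul φzero using hφ
  have heven : ∀ x ∈ A, ∀ y ∈ A, eps (x * y) = 1 := fun x hx y hy => by
    rw [map_mul, hneg x hx, hneg y hy]; simp
  have φone : ∀ p, Q p → φ p 1 = 0 := by
    intro p hp
    have h1 := φmul p hp 1 1 (map_one eps) (map_one eps)
    rw [mul_one] at h1
    linear_combination -h1
  have φinv : ∀ p, Q p → ∀ x, eps x = 1 → φ p x⁻¹ = - φ p x := by
    intro p hp x hx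
    have h1 := φmul p hp x x⁻¹ hx (by rw [map_inv, hx, inv_one])
    rw [mul_inv_cancel, φone p hp] at h1
    linear_combination -h1
  have φzpow : ∀ p, Q p → ∀ x, eps x = 1 → ∀ n : ℤ, φ p (x ^ n) = n * φ p x := by
    intro p hp x hx n
    have hpow : ∀ m : ℕ, φ p (x ^ m) = m * φ p x := by
      intro m
      induction m with
      | zero => simp [φone p hp]
      | succ m ih =>
        rw [pow_succ, φmul p hp _ _ (by rw [map_pow, hx, one_pow]) hx, ih]
        push_cast
        ring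
    rcases Int.eq_nat_or_neg n with ⟨m, rfl | rfl⟩
    · rw [zpow_natCast, hpow]; simp
    · rw [zpow_neg, zpow_natCast, φinv p hp _ (by rw [map_pow, hx, one_pow]), hpow]
      push_cast
      ring
  -- the height of a letter relative to `t`
  have hη : ∀ p, Q p → ∀ x ∈ A, ∀ y ∈ A, φ p (x * y) = φ p (x * t) - φ p (y * t) := by
    intro p hp x hx y hy
    have e : x * y = (x * t) * (y * t)⁻¹ := by
      rw [mul_inv_rev, hii y hy, hii t htA]
      calc x * y = x * (t * t) * y := by rw [hinv t htA, mul_one]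
        _ = x * t * (t * y) := by simp only [mul_assoc]
    rw [e, φmul p hp _ _ (heven x hx t htA) (by rw [map_inv, heven y hy t htA, inv_one]), φinv p hp _ (heven y hy t htA)]
    ring
  have hsim : ∀ x ∈ A, ∀ y ∈ A, (∀ p, Q p → φ p (x * t) = φ p (y * t)) → x = y := by
    intro x hx y hy h
    by_contra hne
    refine hI.diff x hx y hy hne ?_
    intro p hp hpC
    rw [hii y hy]
    have hp' : Q p := ⟨hp, hpC⟩
    refine (φzero p hp' _ (heven x hx y hy)).1 ?_
    rw [hη p hp' x hx y hy, h p hp', sub_self]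
  have hrel1 : ∀ x ∈ A, ∀ y ∈ A, ∀ z ∈ A, ∀ σ : ℕ, RelN N C x y z σ → ∃ m n : ℤ, (m ≠ 0 ∨ n ≠ 0) ∧ |m| ≤ σ ∧ |n| ≤ σ ∧
      ∀ p, Q p → (m : ZMod p) * (φ p (x * t) - φ p (y * t)) + n * (φ p (z * t) - φ p (y * t)) = 0 := by
    rintro x hx y hy z hz σ ⟨m, n, h1, h2, h3, h4⟩
    refine ⟨m, n, h1, h2, h3, fun p hp => ?_⟩
    have e1 := heven x hx y hy
    have e2 := heven z hz y hy
    have h5 := (φzero p hp _ (by rw [map_mul, map_zpow, map_zpow, e1, e2, one_zpow, one_zpow, one_mul])).2 (h4 p hp.1 hp.2)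
    rw [φmul p hp _ _ (by rw [map_zpow, e1, one_zpow]) (by rw [map_zpow, e2, one_zpow]), φzpow p hp _ e1, φzpow p hp _ e2,
      hη p hp x hx y hy, hη p hp z hz y hy] at h5
    exact h5
  have hrel2 : ∀ x ∈ A, ∀ y ∈ A, ∀ z ∈ A, ∀ σ : ℕ, (∃ m n : ℤ, (m ≠ 0 ∨ n ≠ 0) ∧ |m| ≤ σ ∧ |n| ≤ σ ∧
      ∀ p, Q p → (m : ZMod p) * (φ p (x * t) - φ p (y * t)) + n * (φ p (z * t) - φ p (y * t)) = 0) → RelN N C x y z σ := by
    rintro x hx y hy z hz σ ⟨m, n, h1, h2, h3, h4⟩
    refine ⟨m, n, h1, h2, h3, fun p hp hpC => ?_⟩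
    have hp' : Q p := ⟨hp, hpC⟩
    have e1 := heven x hx y hy
    have e2 := heven z hz y hy
    refine (φzero p hp' _ (by rw [map_mul, map_zpow, map_zpow, e1, e2, one_zpow, one_zpow, one_mul])).1 ?_
    rw [φmul p hp' _ _ (by rw [map_zpow, e1, one_zpow]) (by rw [map_zpow, e2, one_zpow]), φzpow p hp' _ e1, φzpow p hp' _ e2,
      hη p hp' x hx y hy, hη p hp' z hz y hy]
    exact h4 p hp'
  have hPdvd : ∀ x ∈ A, ∀ y ∈ A, φ P (x * t) ≠ φ P (y * t) → P ∣ orderOf (x * y) := by
    intro x hx y hy h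
    by_contra h1
    apply h
    have h2 := (φzero P hQP _ (heven x hx y hy)).2 h1
    rw [hη P hQP x hx y hy] at h2
    exact sub_eq_zero.1 h2
  have hηt : ∀ p, Q p → φ p (t * t) = 0 := fun p hp => by rw [hinv t htA]; exact φone p hp
  -- the base triple
  obtain ⟨m, n, hmn, hm, hn, hr⟩ := hrel1 a haA t htA b hbA τ (hnear a haA t htA b hbA hI.hat hI.nab)
  have hPa : φ P (a * t) ≠ 0 := fun h => (φzero P hQP _ (heven a haA t htA)).1 h hI.hat
  have hr' : ∀ p, Q p → (m : ZMod p) * φ p (a * t) + n * φ p (b * t) = 0 := by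
    intro p hp
    have := hr p hp
    rw [hηt p hp, sub_zero, sub_zero] at this
    exact this
  have hne : ∀ p, Q p → ∀ x : ℤ, x ≠ 0 → |x| ≤ 6 * τ ^ 3 → ((x : ℤ) : ZMod p) ≠ 0 := fun p hp x hx hb =>
    int_ne_zero hx hb (by have := hQm p hp; linarith)
  have hn0 : n ≠ 0 := by
    rintro rfl
    have hm0 : m ≠ 0 := by tauto
    have h1 := hr' P hQP
    have hf : Fact P.Prime := ⟨hg.prime⟩
    rw [Int.cast_zero, zero_mul, add_zero] at h1
    rcases mul_eq_zero.1 h1 with h2 | h2
    · exact hne P hQP m hm0 (by linarith) h2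
    · exact hPa h2
  have hm0 : m ≠ 0 := by
    rintro rfl
    have h0 : b = t := by
      refine hsim b hbA t htA fun p hp => ?_
      have hf : Fact p.Prime := ⟨hQp p hp⟩
      have h1 := hr' p hp
      rw [Int.cast_zero, zero_mul, zero_add] at h1
      rcases mul_eq_zero.1 h1 with h2 | h2
      · exact absurd h2 (hne p hp n hn0 (by linarith))
      · rw [h2, hηt p hp]
    apply hI.nab
    rw [h0, hinv t htA]
    simp only [mul_one, inv_one, mul_inv_cancel]
    exact N.one_mem
  have hmn0 : m + n ≠ 0 := by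
    intro h
    have h0 : a = b := by
      refine hsim a haA b hbA fun p hp => ?_
      have hf : Fact p.Prime := ⟨hQp p hp⟩
      have h1 := hr' p hp
      have e : n = -m := by linarith
      rw [e] at h1
      push_cast at h1
      have h2 : (m : ZMod p) * (φ p (a * t) - φ p (b * t)) = 0 := by linear_combination h1
      rcases mul_eq_zero.1 h2 with h3 | h3
      · exact absurd h3 (hne p hp m hm0 (by linarith))
      · exact sub_eq_zero.1 h3
    apply hI.nab
    rw [h0]
    have e : b * t * (b * t) * (b * t)⁻¹ * (b * t)⁻¹ = 1 := by group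
    rw [e]
    exact N.one_mem
  -- the unit
  obtain ⟨c, hb, ha⟩ : ∃ c : (p : ℕ) → ZMod p, (∀ p, Q p → φ p (b * t) = m * c p) ∧ ∀ p, Q p → φ p (a * t) = -n * c p := by
    refine ⟨fun p => φ p (b * t) * (m : ZMod p)⁻¹, fun p hp => ?_, fun p hp => ?_⟩
    · have hf : Fact p.Prime := ⟨hQp p hp⟩
      have h1 := hne p hp m hm0 (by linarith)
      show φ p (b * t) = m * (φ p (b * t) * (m : ZMod p)⁻¹)
      field_simp
    · have hf : Fact p.Prime := ⟨hQp p hp⟩
      have h1 := hne p hp m hm0 (by linarith)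
      have h2 := hr' p hp
      show φ p (a * t) = -n * (φ p (b * t) * (m : ZMod p)⁻¹)
      field_simp
      linear_combination h2
  have hcP : c P ≠ 0 := fun h => hPa (by rw [ha P hQP, h, mul_zero])
  have hfP : Fact P.Prime := ⟨hg.prime⟩
  -- every letter
  have hL : ∀ f ∈ A, ∃ u v : ℤ, v ≠ 0 ∧ |v| ≤ τ ∧ |u| ≤ 3 * τ ^ 2 ∧ ∀ p, Q p → (v : ZMod p) * φ p (f * t) = u * c p := by
    intro f hf
    by_cases h1 : (a * t) * (f * t) * (a * t)⁻¹ * (f * t)⁻¹ ∈ N
    swap
    · obtain ⟨m', n', hmn', hm', hn', hr1⟩ := hrel1 a haA t htA f hf τ (hnear a haA t htA f hf hI.hat h1)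
      have hr2 : ∀ p, Q p → (m' : ZMod p) * φ p (a * t) + n' * φ p (f * t) = 0 := by
        intro p hp
        have := hr1 p hp
        rw [hηt p hp, sub_zero, sub_zero] at this
        exact this
      refine ⟨m' * n, n', ?_, hn', ?_, fun p hp => ?_⟩
      · rintro rfl
        have hm0' : m' ≠ 0 := by tauto
        have h3 := hr2 P hQP
        rw [Int.cast_zero, zero_mul, add_zero] at h3
        rcases mul_eq_zero.1 h3 with h4 | h4
        · exact hne P hQP m' hm0' (by linarith) h4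
        · exact hPa h4
      · have := abs_mul_le hm' hn
        nlinarith
      · have h3 := hr2 p hp
        rw [ha p hp] at h3
        push_cast
        linear_combination h3
    by_cases h2 : (b * t) * (f * t) * (b * t)⁻¹ * (f * t)⁻¹ ∈ N
    swap
    · have hbt : φ P (b * t) ≠ 0 := by
        rw [hb P hQP]
        exact mul_ne_zero (hne P hQP m hm0 (by linarith)) hcP
      have hbtP := hPdvd b hbA t htA (by rw [hηt P hQP]; exact hbt)
      obtain ⟨m', n', hmn', hm', hn', hr1⟩ := hrel1 b hbA t htA f hf τ (hnear b hbA t htA f hf hbtP h2)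
      have hr2 : ∀ p, Q p → (m' : ZMod p) * φ p (b * t) + n' * φ p (f * t) = 0 := by
        intro p hp
        have := hr1 p hp
        rw [hηt p hp, sub_zero, sub_zero] at this
        exact this
      refine ⟨-(m' * m), n', ?_, hn', ?_, fun p hp => ?_⟩
      · rintro rfl
        have hm0' : m' ≠ 0 := by tauto
        have h3 := hr2 P hQP
        rw [Int.cast_zero, zero_mul, add_zero] at h3
        rcases mul_eq_zero.1 h3 with h4 | h4
        · exact hne P hQP m' hm0' (by linarith) h4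
        · exact hbt h4
      · rw [abs_neg]
        have := abs_mul_le hm' hm
        nlinarith
      · have h3 := hr2 p hp
        rw [hb p hp] at h3
        push_cast
        linear_combination h3
    by_cases h3 : (a * b) * (f * b) * (a * b)⁻¹ * (f * b)⁻¹ ∈ N
    swap
    · have hab : φ P (a * t) - φ P (b * t) ≠ 0 := by
        rw [ha P hQP, hb P hQP]
        have e : -(n : ZMod P) * c P - m * c P = -(((m + n : ℤ) : ZMod P) * c P) := by push_cast; ring
        rw [e]
        refine neg_ne_zero.2 (mul_ne_zero (hne P hQP _ hmn0 ?_) hcP)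
        have := abs_add_le' hm hn
        linarith
      have habP := hPdvd a haA b hbA (fun h => hab (sub_eq_zero.2 h))
      obtain ⟨m', n', hmn', hm', hn', hr1⟩ := hrel1 a haA b hbA f hf τ (hnear a haA b hbA f hf habP h3)
      refine ⟨n' * m + m' * (m + n), n', ?_, hn', ?_, fun p hp => ?_⟩
      · rintro rfl
        have hm0' : m' ≠ 0 := by tauto
        have h4 := hr1 P hQP
        rw [Int.cast_zero, zero_mul, add_zero] at h4
        rcases mul_eq_zero.1 h4 with h5 | h5
        · exact hne P hQP m' hm0' (by linarith) h5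
        · exact hab h5
      · have e1 := abs_mul_le hn' hm
        have e2 := abs_mul_le hm' (abs_add_le' hm hn)
        have e3 := abs_add_le' e1 e2
        nlinarith
      · have h4 := hr1 p hp
        rw [ha p hp, hb p hp] at h4
        push_cast
        linear_combination h4
    · -- everything commutes
      exfalso
      set q := QuotientGroup.mk' N with hq
      have hcm : ∀ x y : G, x * y * x⁻¹ * y⁻¹ ∈ N ↔ Commute (q x) (q y) := by
        intro x y
        rw [← QuotientGroup.eq_one_iff, Commute, SemiconjBy]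
        change q (x * y * x⁻¹ * y⁻¹) = 1 ↔ _
        rw [map_mul, map_mul, map_mul, map_inv, map_inv, mul_inv_eq_one, mul_inv_eq_iff_eq_mul]
      apply hI.nab
      rw [hcm]
      have c1 := (hcm _ _).1 h1
      have c2 := (hcm _ _).1 h2
      have c3 := (hcm _ _).1 h3
      have e1 : ∀ x : G, x * b = (x * t) * (b * t)⁻¹ := by
        intro x
        rw [mul_inv_rev, hii b hbA, hii t htA]
        calc x * b = x * (t * t) * b := by rw [hinv t htA, mul_one]
          _ = x * t * (t * b) := by simp only [mul_assoc]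
      rw [e1 a, e1 f, map_mul, map_mul q (f * t), map_inv] at c3
      have c4 : Commute (q (a * t) * (q (b * t))⁻¹) (q (f * t)) := c1.mul_left c2.inv_left
      have c5 : Commute (q (a * t) * (q (b * t))⁻¹) ((q (f * t))⁻¹ * (q (f * t) * (q (b * t))⁻¹)) :=
        c4.inv_right.mul_right c3
      rw [inv_mul_cancel_left] at c5
      have c6 : Commute (q (a * t) * (q (b * t))⁻¹) (q (b * t)) := by
        have := c5.inv_right
        rwa [inv_inv] at this
      have c7 : Commute (q (a * t) * (q (b * t))⁻¹ * q (b * t)) (q (b * t)) := c6.mul_left (Commute.refl _)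
      rwa [inv_mul_cancel_right] at c7
  -- two letters with proportional data are equal
  have hcmp : ∀ f ∈ A, ∀ g ∈ A, ∀ u v u' v' : ℤ, v ≠ 0 → v' ≠ 0 → |v| ≤ τ → |v'| ≤ τ →
      (∀ p, Q p → (v : ZMod p) * φ p (f * t) = u * c p) → (∀ p, Q p → (v' : ZMod p) * φ p (g * t) = u' * c p) →
      u * v' - u' * v = 0 → f = g := by
    intro f hf g hg' u v u' v' hv hv' hv1 hv1' h1 h2 h3
    refine hsim f hf g hg' fun p hp => ?_
    have hfp : Fact p.Prime := ⟨hQp p hp⟩
    have e1 := h1 p hp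
    have e2 := h2 p hp
    have e3 : ((u * v' - u' * v : ℤ) : ZMod p) = 0 := by rw [h3]; simp
    push_cast at e3
    have e4 : ((v : ℤ) : ZMod p) * v' * (φ p (f * t) - φ p (g * t)) = 0 := by
      linear_combination (v' : ZMod p) * e1 - (v : ZMod p) * e2 + c p * e3
    have b1 := hne p hp v hv (by linarith)
    have b2 := hne p hp v' hv' (by linarith)
    rcases mul_eq_zero.1 e4 with h4 | h4
    · exact absurd h4 (mul_ne_zero b1 b2)
    · exact sub_eq_zero.1 h4
  constructor
  · intro x hx y hy z hz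
    obtain ⟨u1, v1, a1, a2, a3, a4⟩ := hL x hx
    obtain ⟨u2, v2, b1, b2, b3, b4⟩ := hL y hy
    obtain ⟨u3, v3, c1, c2, c3, c4⟩ := hL z hz
    refine hrel2 x hx y hy z hz _ ?_
    have h16 : (((16 * τ ^ 6 : ℕ) : ℤ)) = 16 * (τ : ℤ) ^ 6 := by push_cast; ring
    rw [h16]
    by_cases hD1 : u3 * v2 - u2 * v3 = 0
    · have hzy := hcmp z hz y hy u3 v3 u2 v2 c1 b1 c2 b2 c4 b4 hD1
      refine ⟨0, 1, Or.inr one_ne_zero, by simp, by simp; linarith, fun p hp => ?_⟩
      rw [hzy]
      simp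
    · refine ⟨v1 * (u3 * v2 - u2 * v3), -(v3 * (u1 * v2 - u2 * v1)), Or.inl (mul_ne_zero a1 hD1), ?_, ?_, fun p hp => ?_⟩
      · have e1 := abs_sub_le' (abs_mul_le c3 b2) (abs_mul_le b3 c2)
        have e2 := abs_mul_le a2 e1
        have e3 : (τ : ℤ) * (3 * τ ^ 2 * τ + 3 * τ ^ 2 * τ) = 6 * τ ^ 4 := by ring
        rw [e3] at e2
        linarith
      · rw [abs_neg]
        have e1 := abs_sub_le' (abs_mul_le a3 b2) (abs_mul_le b3 a2)
        have e2 := abs_mul_le c2 e1
        have e3 : (τ : ℤ) * (3 * τ ^ 2 * τ + 3 * τ ^ 2 * τ) = 6 * τ ^ 4 := by ring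
        rw [e3] at e2
        linarith
      · have hfp : Fact p.Prime := ⟨hQp p hp⟩
        have e1 := a4 p hp
        have e2 := b4 p hp
        have e3 := c4 p hp
        have b5 := hne p hp v2 b1 (by linarith)
        refine (mul_eq_zero.1 (?_ : ((v2 : ℤ) : ZMod p) * _ = 0)).resolve_left b5
        push_cast
        linear_combination ((u3 : ZMod p) * v2 - u2 * v3) * (v2 * e1 - v1 * e2) -
          ((u1 : ZMod p) * v2 - u2 * v1) * (v2 * e3 - v3 * e2)
  · intro x hx y hy hxy
    obtain ⟨u1, v1, a1, a2, a3, a4⟩ := hL x hx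
    obtain ⟨u2, v2, b1, b2, b3, b4⟩ := hL y hy
    by_contra hcon
    apply hxy
    refine hcmp x hx y hy u1 v1 u2 v2 a1 b1 a2 b2 a4 b4 ?_
    by_contra hD
    have h1 := (φzero P hQP _ (heven x hx y hy)).2 hcon
    rw [hη P hQP x hx y hy] at h1
    have e1 := a4 P hQP
    have e2 := b4 P hQP
    have e3 : ((u1 * v2 - u2 * v1 : ℤ) : ZMod P) * c P = 0 := by
      push_cast
      linear_combination -(v2 : ZMod P) * e1 + (v1 : ZMod P) * e2 + (v1 : ZMod P) * v2 * h1
    rcases mul_eq_zero.1 e3 with h2 | h2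
    · refine hne P hQP _ hD ?_ h2
      have e1 := abs_sub_le' (abs_mul_le a3 b2) (abs_mul_le b3 a2)
      have e3 : (3 * (τ : ℤ) ^ 2 * τ + 3 * τ ^ 2 * τ) = 6 * τ ^ 3 := by ring
      rw [e3] at e1
      exact e1
    · exact hcP h2

end Pool.Agent.Lib.MP_688fd0_co.SQD.H24
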