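import Pool.Agent.Lib.MP_688fd0_co.SQ5.H23.C2All
import Pool.Agent.Lib.MP_688fd0_co.SQ5.H24.C1n

/-!
C2 (helper24): the heights at the primes of `N₁`.

`ndvd_mul`: for a prime `p` of `N` which does not divide `|C|`, the elements of `ker eps` whose order is prime to `p` form a
subgroup. `exists_phi`: it is the kernel of a homomorphism `φ : ker eps → ZMod p` (a function on `G`, additive on `ker eps`).
-/

set_option autoImplicit false
set_option linter.unusedSectionVars false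

namespace Pool.Agent.Lib.MP_688fd0_co.SQD.H24

open Pool.Agent.Lib.MP_688fd0_co.OSF Pool.Agent.Lib.MP_688fd0_co.SQ3
open Subgroup

section hgt

variable {G : Type*} [Group G] [Finite G] {N C : Subgroup G} {eps : G →* ℤˣ} {k P : ℕ}

theorem pow_mem_N (h : GN N C eps k P) (x : G) : x ^ k ∈ N := by
  have hNn := h.Nn
  have := pow_index_mem N x
  rwa [h.idx] at this

/-- A prime `p` which does not divide `k` divides the order of `x` iff it divides the order of `x ^ k`. -/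
theorem dvd_orderOf_pow {p : ℕ} (hp : p.Prime) (hpk : ¬ p ∣ k) (x : G) : p ∣ orderOf (x ^ k) ↔ p ∣ orderOf x := by
  constructor
  · exact fun h => h.trans (orderOf_pow_dvd k)
  · intro h
    have h1 : orderOf x ∣ k * orderOf (x ^ k) := by
      rw [orderOf_dvd_iff_pow_eq_one, pow_mul, pow_orderOf_eq_one]
    rcases (Nat.Prime.dvd_mul hp).1 (h.trans h1) with h2 | h2
    · exact absurd h2 hpk
    · exact h2

theorem ndvd_k (h : GN N C eps k P) {p : ℕ} (hp : p.Prime) (hpN : p ∣ Nat.card N) : ¬ p ∣ k := fun hk => by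
  have := Nat.dvd_gcd hpN hk
  rw [h.cop] at this
  exact hp.one_lt.ne' (Nat.dvd_one.1 this)

/-- The elements of `ker eps` whose order is prime to `p` form a subgroup. -/
theorem ndvd_mul (h : GN N C eps k P) {p : ℕ} (hp : p.Prime) (hpN : p ∣ Nat.card N) (hpC : ¬ p ∣ Nat.card C) {x y : G}
    (hx : eps x = 1) (hy : eps y = 1) (h1 : ¬ p ∣ orderOf x) (h2 : ¬ p ∣ orderOf y) : ¬ p ∣ orderOf (x * y) := by
  have hpk := ndvd_k h hp hpN
  intro hdiv
  have h3 := (dvd_orderOf_pow hp hpk (x * y)).2 hdiv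
  have hc := SQ5.N.pow_mod_C h x y hx hy
  set c := ((x * y) ^ k)⁻¹ * (x ^ k * y ^ k) with hcd
  have e : (x * y) ^ k = (x ^ k * y ^ k) * c⁻¹ := by rw [hcd]; group
  have hcN : c⁻¹ ∈ N := N.inv_mem (h.CN hc)
  have hxN := pow_mem_N h x
  have hyN := pow_mem_N h y
  have c1 : Commute (x ^ k) (y ^ k) := SQ2.H41.comm_of_cyclic N h.Nc _ hxN _ hyN
  have c2 : Commute (x ^ k * y ^ k) c⁻¹ := SQ2.H41.comm_of_cyclic N h.Nc _ (N.mul_mem hxN hyN) _ hcN
  have h4 : orderOf ((x * y) ^ k) ∣ (orderOf (x ^ k) * orderOf (y ^ k)) * orderOf c⁻¹ := by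
    rw [e]
    exact c2.orderOf_mul_dvd_mul_orderOf.trans (Nat.mul_dvd_mul_right c1.orderOf_mul_dvd_mul_orderOf _)
  rcases (Nat.Prime.dvd_mul hp).1 (h3.trans h4) with h5 | h5
  · rcases (Nat.Prime.dvd_mul hp).1 h5 with h6 | h6
    · exact h1 (h6.trans (orderOf_pow_dvd k))
    · exact h2 (h6.trans (orderOf_pow_dvd k))
  · apply hpC
    have h6 : orderOf (⟨c⁻¹, C.inv_mem hc⟩ : C) ∣ Nat.card C := orderOf_dvd_natCard _
    rw [Subgroup.orderOf_mk] at h6
    exact h5.trans h6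

/-- Equal heights at `p`: transitivity. -/
theorem same_trans (h : GN N C eps k P) {p : ℕ} (hp : p.Prime) (hpN : p ∣ Nat.card N) (hpC : ¬ p ∣ Nat.card C)
    {s s' s'' : G} (h1 : eps s = eps s') (h2 : eps s' = eps s'') (h3 : ¬ p ∣ orderOf (s * s'⁻¹))
    (h4 : ¬ p ∣ orderOf (s' * s''⁻¹)) : ¬ p ∣ orderOf (s * s''⁻¹) := by
  have e1 : eps (s * s'⁻¹) = 1 := by rw [map_mul, map_inv, h1, mul_inv_cancel]
  have e2 : eps (s' * s''⁻¹) = 1 := by rw [map_mul, map_inv, h2, mul_inv_cancel]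
  have e : s * s''⁻¹ = (s * s'⁻¹) * (s' * s''⁻¹) := by group
  rw [e]
  exact ndvd_mul h hp hpN hpC e1 e2 h3 h4

theorem same_symm {p : ℕ} {s s' : G} (h : ¬ p ∣ orderOf (s * s'⁻¹)) : ¬ p ∣ orderOf (s' * s⁻¹) := by
  have e : s' * s⁻¹ = (s * s'⁻¹)⁻¹ := by group
  rw [e, orderOf_inv]
  exact h

/-- Powers of a generator of squarefree order. -/
theorem zpow_zero_iff {z : G} (hsq : Squarefree (orderOf z)) {p : ℕ} (hp : p.Prime) (hpz : p ∣ orderOf z) (e : ℤ) :
    ((e : ℤ) : ZMod p) = 0 ↔ ¬ p ∣ orderOf (z ^ e) := by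
  rw [ZMod.intCast_zmod_eq_zero_iff_dvd]
  constructor
  · rintro ⟨f, rfl⟩ hdiv
    obtain ⟨M, hM⟩ := hpz
    have h1 : (z ^ ((p : ℤ) * f)) ^ M = 1 := by
      rw [← zpow_natCast, ← zpow_mul]
      have e1 : (p : ℤ) * f * M = ((p * M : ℕ) : ℤ) * f := by push_cast; ring
      rw [e1, zpow_mul, zpow_natCast, ← hM, pow_orderOf_eq_one, one_zpow]
    have h2 := hdiv.trans (orderOf_dvd_of_pow_eq_one h1)
    obtain ⟨M', rfl⟩ := h2
    have h3 := hsq p ⟨M', by rw [hM]; ring⟩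
    exact hp.one_lt.ne' (Nat.isUnit_iff.1 h3)
  · intro hn
    have h1 : z ^ (e * (orderOf (z ^ e) : ℤ)) = 1 := by
      rw [zpow_mul, zpow_natCast, pow_orderOf_eq_one]
    have h2 : (orderOf z : ℤ) ∣ e * (orderOf (z ^ e) : ℤ) := orderOf_dvd_iff_zpow_eq_one.2 h1
    have h3 : (p : ℤ) ∣ e * (orderOf (z ^ e) : ℤ) := (Int.natCast_dvd_natCast.2 hpz).trans h2
    rcases (Nat.prime_iff_prime_int.1 hp).dvd_or_dvd h3 with h4 | h4
    · exact h4
    · exact absurd (Int.natCast_dvd_natCast.1 h4) hn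

/-- The height at `p`. -/
theorem exists_phi (h : GN N C eps k P) {p : ℕ} (hp : p.Prime) (hpN : p ∣ Nat.card N) (hpC : ¬ p ∣ Nat.card C) :
    ∃ φ : G → ZMod p, (∀ x y, eps x = 1 → eps y = 1 → φ (x * y) = φ x + φ y) ∧
      ∀ x, eps x = 1 → (φ x = 0 ↔ ¬ p ∣ orderOf x) := by
  have hpk := ndvd_k h hp hpN
  have hNc := h.Nc
  obtain ⟨⟨z, hzN⟩, hz⟩ := IsCyclic.exists_generator (α := N)
  have hzo : orderOf z = Nat.card N := by
    have h1 := orderOf_eq_card_of_forall_mem_zpowers hz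
    rw [Subgroup.orderOf_mk] at h1
    exact h1
  have hsq : Squarefree (orderOf z) := by rw [hzo]; exact h.Nsq
  have hpz : p ∣ orderOf z := by rw [hzo]; exact hpN
  have hex : ∀ y ∈ N, ∃ e : ℤ, z ^ e = y := by
    intro y hy
    obtain ⟨e, he⟩ := Subgroup.mem_zpowers_iff.1 (hz ⟨y, hy⟩)
    refine ⟨e, ?_⟩
    have := congrArg Subtype.val he
    simpa using this
  choose! ex hexs using hex
  refine ⟨fun x => ((ex (x ^ k) : ℤ) : ZMod p), ?_, ?_⟩
  · intro x y hx hy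
    have hc := SQ5.N.pow_mod_C h x y hx hy
    have h1 := hexs _ (pow_mem_N h x)
    have h2 := hexs _ (pow_mem_N h y)
    have h3 := hexs _ (pow_mem_N h (x * y))
    have e : ((x * y) ^ k)⁻¹ * (x ^ k * y ^ k) = z ^ (ex (x ^ k) + ex (y ^ k) - ex ((x * y) ^ k)) := by
      rw [zpow_sub, zpow_add, h1, h2, h3]
      have c1 : Commute (x ^ k * y ^ k) ((x * y) ^ k)⁻¹ := by
        rw [← h1, ← h2, ← h3]
        exact (((Commute.refl z).zpow_zpow _ _).mul_left ((Commute.refl z).zpow_zpow _ _)).inv_right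
      exact c1.symm.eq
    rw [e] at hc
    have h4 : ¬ p ∣ orderOf (z ^ (ex (x ^ k) + ex (y ^ k) - ex ((x * y) ^ k))) := by
      intro h5
      apply hpC
      have h6 : orderOf (⟨_, hc⟩ : C) ∣ Nat.card C := orderOf_dvd_natCard _
      rw [Subgroup.orderOf_mk] at h6
      exact h5.trans h6
    have h5 := (zpow_zero_iff hsq hp hpz _).2 h4
    push_cast at h5
    show ((ex ((x * y) ^ k) : ℤ) : ZMod p) = ((ex (x ^ k) : ℤ) : ZMod p) + ((ex (y ^ k) : ℤ) : ZMod p)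
    linear_combination -h5
  · intro x _
    show ((ex (x ^ k) : ℤ) : ZMod p) = 0 ↔ _
    rw [zpow_zero_iff hsq hp hpz, hexs _ (pow_mem_N h x), dvd_orderOf_pow hp hpk]

end hgt

end Pool.Agent.Lib.MP_688fd0_co.SQD.H24
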